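import Pool.Agent.V11281.Snf.Top

/-!
# Free abelian topological groups: decomposition of convergent sequences of bounded length
-/

set_option autoImplicit false

open Set Topology Filter
open scoped Pointwise

namespace Pool.Agent.V11281.Snf

universe u v

/-- the free abelian group over `X` -/
def AT (X : Type u) : Type u := X →₀ ℤ

noncomputable instance (X : Type u) : AddCommGroup (AT X) := inferInstanceAs (AddCommGroup (X →₀ ℤ))

/-- the canonical map -/
noncomputable def AT.of {X : Type u} (x : X) : AT X := Finsupp.single x (1 : ℤ)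

variable {X : Type u}

/-- the extension of a map -/
noncomputable def AT.lift {G : Type v} [AddCommGroup G] (f : X → G) : AT X →+ G :=
  Finsupp.liftAddHom fun x => (zmultiplesHom G) (f x)

lemma lift_of {G : Type v} [AddCommGroup G] (f : X → G) (x : X) : AT.lift f (AT.of x) = f x := by
  have h := Finsupp.liftAddHom_apply_single (fun x => (zmultiplesHom G) (f x)) x (1 : ℤ)
  rw [zmultiplesHom_apply, one_smul] at h
  exact h

lemma hom_ext' {G : Type v} [AddCommGroup G] {f g : AT X →+ G}
    (h : ∀ x, f (AT.of x) = g (AT.of x)) : f = g := by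
  refine Finsupp.addHom_ext' fun x => ?_
  ext
  exact h x

/-- length -/
noncomputable def alen (w : AT X) : ℕ := (show X →₀ ℤ from w).sum fun _ k => k.natAbs

/-- words of length at most `n` -/
def An (X : Type u) (n : ℕ) : Set (AT X) := {w | alen w ≤ n}

/-- the letters of a word -/
noncomputable def lett (w : AT X) : Finset X := (show X →₀ ℤ from w).support

/-- coefficients -/
def coef (w : AT X) (x : X) : ℤ := (show X →₀ ℤ from w) x

lemma lift_apply {G : Type v} [AddCommGroup G] (f : X → G) (w : AT X) :
    AT.lift f w = ∑ x ∈ lett w, coef w x • f x := rfl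

lemma mem_lett {w : AT X} {x : X} : x ∈ lett w ↔ coef w x ≠ 0 := Finsupp.mem_support_iff

lemma coef_add (v w : AT X) (x : X) : coef (v + w) x = coef v x + coef w x := Finsupp.add_apply _ _ _

lemma coef_sub (v w : AT X) (x : X) : coef (v - w) x = coef v x - coef w x := Finsupp.sub_apply _ _ _

lemma coef_zero (x : X) : coef (0 : AT X) x = 0 := rfl

lemma coef_of_self (x : X) : coef (AT.of x) x = 1 := by
  classical
  exact Finsupp.single_eq_same

lemma coef_of_ne {x y : X} (h : x ≠ y) : coef (AT.of x) y = 0 := by
  classical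
  exact Finsupp.single_eq_of_ne (Ne.symm h)

lemma AT_ext {v w : AT X} (h : ∀ x, coef v x = coef w x) : v = w := Finsupp.ext h

lemma alen_eq_zero {w : AT X} : alen w = 0 ↔ w = 0 := by
  classical
  constructor
  · intro h
    apply AT_ext
    intro x
    rw [coef_zero]
    by_contra hx
    have h1 : (show X →₀ ℤ from w).sum (fun _ k => k.natAbs) = 0 := h
    unfold Finsupp.sum at h1
    rw [Finset.sum_eq_zero_iff] at h1
    have h2 := h1 x (Finsupp.mem_support_iff.2 hx)
    exact hx (Int.natAbs_eq_zero.1 h2)
  · rintro rfl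
    rfl

lemma alen_eq_sum {w : AT X} {s : Finset X} (hs : lett w ⊆ s) :
    alen w = ∑ x ∈ s, (coef w x).natAbs := by
  classical
  exact Finsupp.sum_of_support_subset _ hs _ (fun _ _ => rfl)

lemma alen_add_le (v w : AT X) : alen (v + w) ≤ alen v + alen w := by
  classical
  set s := lett v ∪ lett w ∪ lett (v + w)
  rw [alen_eq_sum (w := v) (s := s) (fun x hx => by simp [s, hx]),
    alen_eq_sum (w := w) (s := s) (fun x hx => by simp [s, hx]),
    alen_eq_sum (w := v + w) (s := s) (fun x hx => by simp [s, hx]), ← Finset.sum_add_distrib]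
  refine Finset.sum_le_sum fun x _ => ?_
  rw [coef_add]
  exact Int.natAbs_add_le _ _

lemma alen_neg (w : AT X) : alen (-w) = alen w := by
  classical
  set s := lett w ∪ lett (-w)
  rw [alen_eq_sum (w := w) (s := s) (fun x hx => by simp [s, hx]),
    alen_eq_sum (w := -w) (s := s) (fun x hx => by simp [s, hx])]
  refine Finset.sum_congr rfl fun x _ => ?_
  have : coef (-w) x = - coef w x := Finsupp.neg_apply _ _
  rw [this, Int.natAbs_neg]

lemma alen_of (x : X) : alen (AT.of x) = 1 := by
  classical
  have h : lett (AT.of x) ⊆ {x} := by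
    intro y hy
    rw [mem_lett] at hy
    rw [Finset.mem_singleton]
    by_contra hne
    exact hy (coef_of_ne (Ne.symm hne))
  rw [alen_eq_sum h, Finset.sum_singleton, coef_of_self]
  rfl

section top

variable [TopologicalSpace X]

/-- the Markov topology: the finest group topology making the canonical map continuous -/
noncomputable instance : TopologicalSpace (AT X) :=
  (AddGroupTopology.coinduced (AT.of : X → AT X)).toTopologicalSpace

instance : IsTopologicalAddGroup (AT X) :=
  (AddGroupTopology.coinduced (AT.of : X → AT X)).toIsTopologicalAddGroup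

lemma continuous_of : Continuous (AT.of : X → AT X) := AddGroupTopology.coinduced_continuous AT.of

/-- the universal property -/
theorem continuous_lift {G : Type v} [AddCommGroup G] [TopologicalSpace G] [IsTopologicalAddGroup G]
    {f : X → G} (hf : Continuous f) : Continuous (AT.lift f) := by
  have hG : @IsTopologicalAddGroup (AT X) (TopologicalSpace.induced (AT.lift f) inferInstance) _ :=
    topologicalAddGroup_induced (AT.lift f)
  let b : AddGroupTopology (AT X) := ⟨TopologicalSpace.induced (AT.lift f) inferInstance, hG⟩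
  have h1 : AddGroupTopology.coinduced (AT.of : X → AT X) ≤ b := by
    apply sInf_le
    change TopologicalSpace.coinduced _ _ ≤ TopologicalSpace.induced _ _
    rw [← continuous_iff_coinduced_le, continuous_induced_rng]
    have : (AT.lift f : AT X → G) ∘ AT.of = f := funext fun x => lift_of f x
    rw [this]
    exact hf
  exact continuous_iff_le_induced.2 (AddGroupTopology.toTopologicalSpace_le.2 h1)

/-- evaluation of the extension of a function which distinguishes one letter -/
lemma lift_eq_coef {h : X → ℝ} {w : AT X} {t : X} (h1 : h t = 1)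
    (h0 : ∀ x ∈ lett w, x ≠ t → h x = 0) : AT.lift h w = coef w t := by
  classical
  rw [lift_apply]
  by_cases ht : t ∈ lett w
  · rw [Finset.sum_eq_single_of_mem t ht (fun x hx hne => by rw [h0 x hx hne, smul_zero]), h1]
    simp
  · rw [Finset.sum_eq_zero (fun x hx => by
      rw [h0 x hx (by rintro rfl; exact ht hx), smul_zero])]
    have : coef w t = 0 := by
      by_contra hne
      exact ht (mem_lett.2 hne)
    rw [this, Int.cast_zero]

/-- separation of a point from a finite set -/
lemma exists_sep [T35Space X] (t : X) (S : Finset X) (ht : t ∉ S) : ∃ h : X → ℝ, Continuous h ∧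
    h t = 1 ∧ (∀ x ∈ S, h x = 0) ∧ ∀ x, 0 ≤ h x ∧ h x ≤ 1 := by
  obtain ⟨f, hf, hf0, hf1⟩ := CompletelyRegularSpace.completely_regular t (S : Set X)
    S.finite_toSet.isClosed (by simpa using ht)
  refine ⟨fun y => 1 - (f y : ℝ), by fun_prop, by simp [hf0], fun x hx => ?_, fun x => ?_⟩
  · have h1 := hf1 hx
    simp [h1]
  · have h1 := (f x).2.1
    have h2 := (f x).2.2
    constructor <;> linarith

instance [T35Space X] : T2Space (AT X) := by
  classical
  apply IsTopologicalAddGroup.t2Space_of_zero_sep
  intro w hw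
  obtain ⟨t, ht⟩ : ∃ t, coef w t ≠ 0 := by
    by_contra hcon
    push Not at hcon
    exact hw (AT_ext hcon)
  obtain ⟨h, hc, h1, h0, -⟩ := exists_sep t ((lett w).erase t) (by simp)
  refine ⟨AT.lift h ⁻¹' Ioo (-1) 1, ?_, ?_⟩
  · refine (isOpen_Ioo.preimage (continuous_lift hc)).mem_nhds ?_
    rw [mem_preimage, map_zero]
    constructor <;> norm_num
  · intro hmem
    rw [mem_preimage, lift_eq_coef h1 (fun x hx hne => h0 x (Finset.mem_erase.2 ⟨hne, hx⟩))] at hmem
    have h3 : (-1 : ℝ) < (coef w t : ℝ) := hmem.1
    have h4 : (coef w t : ℝ) < 1 := hmem.2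
    have h5 : -1 < coef w t := by exact_mod_cast h3
    have h6 : coef w t < 1 := by exact_mod_cast h4
    omega

end top

section bdd

/-- bounded sequences -/
abbrev RB : Type := BoundedContinuousFunction ℕ ℝ

/-- a map to bounded sequences with disjoint bumps is continuous -/
lemma continuous_bumps {X : Type u} [TopologicalSpace X] {H : X → RB} (G : X → ℝ)
    (hG : Continuous G) (r : ℕ → ℝ) (hr : ∀ m n, m < n → r m + 1 ≤ r n)
    (hH : ∀ k, Continuous fun x => H x k) (a : ℝ)
    (hH0 : ∀ x k, 1 / 4 ≤ |G x - r k| → H x k = a) : Continuous H := by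
  rw [continuous_iff_continuousAt]
  intro x0
  obtain ⟨k0, hk0⟩ : ∃ k0 : ℕ, ∀ k, k ≠ k0 → 1 / 2 ≤ |G x0 - r k| := by
    by_cases h : ∃ k, |G x0 - r k| < 1 / 2
    · obtain ⟨k0, hk0⟩ := h
      refine ⟨k0, fun k hk => ?_⟩
      by_contra hcon
      rw [not_le] at hcon
      rw [abs_lt] at hk0 hcon
      rcases lt_or_gt_of_ne hk with h1 | h1
      · have := hr k k0 h1
        linarith [hk0.1, hk0.2, hcon.1, hcon.2]
      · have := hr k0 k h1
        linarith [hk0.1, hk0.2, hcon.1, hcon.2]
    · push Not at h
      exact ⟨0, fun k _ => h k⟩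
  unfold ContinuousAt
  rw [tendsto_iff_dist_tendsto_zero]
  have h1 : Tendsto (fun x => |H x k0 - H x0 k0|) (𝓝 x0) (𝓝 0) := by
    have h2 : Continuous fun x => |H x k0 - H x0 k0| := ((hH k0).sub continuous_const).abs
    have h3 := h2.tendsto x0
    rwa [sub_self, abs_zero] at h3
  refine squeeze_zero' (Eventually.of_forall fun _ => dist_nonneg) ?_ h1
  have h2 : ∀ᶠ x in 𝓝 x0, |G x - G x0| < 1 / 4 := by
    have h3 : Continuous fun x => |G x - G x0| := (hG.sub continuous_const).abs
    exact h3.continuousAt.eventually_lt continuousAt_const (by simp)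
  filter_upwards [h2] with x hx
  rw [BoundedContinuousFunction.dist_le (abs_nonneg _)]
  intro k
  rw [Real.dist_eq]
  by_cases hk : k = k0
  · rw [hk]
  · have h3 := hk0 k hk
    have h4 : H x0 k = a := hH0 x0 k (by linarith)
    have h5 : H x k = a := by
      apply hH0 x k
      have h6 : G x0 - r k = (G x0 - G x) + (G x - r k) := by ring
      have h7 := abs_add_le (G x0 - G x) (G x - r k)
      rw [← h6, abs_sub_comm (G x0) (G x)] at h7
      linarith
    rw [h4, h5, sub_self, abs_zero]
    exact abs_nonneg _

/-- the bump functions -/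
noncomputable def bump (G : ℝ) (r : ℝ) : ℝ := max 0 (1 - 4 * |G - r|)

lemma bump_self (r : ℝ) : bump r r = 1 := by simp [bump]

lemma bump_far {G r : ℝ} (h : 1 / 4 ≤ |G - r|) : bump G r = 0 := by
  unfold bump
  apply max_eq_left
  linarith

lemma bump_nonneg (G r : ℝ) : 0 ≤ bump G r := le_max_left _ _

lemma bump_le_one (G r : ℝ) : bump G r ≤ 1 := by
  unfold bump
  apply max_le zero_le_one
  have := abs_nonneg (G - r)
  linarith

lemma continuous_bump (r : ℝ) : Continuous fun G => bump G r := by
  unfold bump
  fun_prop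

/-- subsequences along which a function grows -/
lemma exists_growing {t : ℕ → ℝ} (h : ∀ C : ℝ, ∃ j, C < |t j|) :
    ∃ φ : ℕ → ℕ, StrictMono φ ∧ ∀ m n, m < n → |t (φ m)| + 1 ≤ |t (φ n)| := by
  obtain ⟨φ, -, hφ⟩ := exists_seq_of_forall_finset_exists (fun _ : ℕ => True)
    (fun m n => m < n ∧ |t m| + 1 ≤ |t n|) (fun s _ => by
      obtain ⟨b, hb⟩ := s.finite_toSet.bddAbove
      obtain ⟨j, hj⟩ := h (∑ i ∈ Finset.range (b + 1), (|t i| + 1))
      have h1 : ∀ m ∈ s, |t m| + 1 < |t j| := by
        intro m hm
        have hmb : m ∈ Finset.range (b + 1) := by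
          have := hb hm
          simp only [Finset.mem_range]
          omega
        have h2 := Finset.single_le_sum (f := fun i => |t i| + 1)
          (fun i _ => by positivity) hmb
        exact lt_of_le_of_lt h2 hj
      have h3 : b < j := by
        by_contra hcon
        have hjb : j ∈ Finset.range (b + 1) := by
          simp only [Finset.mem_range]
          omega
        have h2 := Finset.single_le_sum (f := fun i => |t i| + 1)
          (fun i _ => by positivity) hjb
        linarith
      exact ⟨j, trivial, fun m hm => ⟨lt_of_le_of_lt (hb hm) h3, (h1 m hm).le⟩⟩)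
  exact ⟨φ, fun m n h => (hφ m n h).1, fun m n h => (hφ m n h).2⟩

variable {X : Type u} [TopologicalSpace X] [T35Space X]

/-- the letters of convergent sequences are functionally bounded -/
lemma fbdd_letters {w : ℕ → AT X} {z : AT X} (hw : Tendsto w atTop (𝓝 z)) {t : ℕ → X}
    (ht : ∀ j, t j ∈ lett (w j)) : FBdd t := by
  classical
  intro g hg
  by_contra hcon
  push Not at hcon
  obtain ⟨φ, hφ, hgr⟩ := exists_growing hcon
  -- the bumps
  have hsep : ∀ k, ∃ h : X → ℝ, Continuous h ∧ h (t (φ k)) = 1 ∧
      (∀ x ∈ (lett (w (φ k)) ∪ lett z).erase (t (φ k)), h x = 0) ∧ ∀ x, 0 ≤ h x ∧ h x ≤ 1 :=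
    fun k => exists_sep _ _ (by simp)
  choose uu hu hu1 hu0 hub using hsep
  let H0 : X → ℕ → ℝ := fun x k => bump |g x| |g (t (φ k))| * uu k x
  have hH0b : ∀ x k, ‖H0 x k‖ ≤ 1 := by
    intro x k
    have h1 : 0 ≤ H0 x k := mul_nonneg (bump_nonneg _ _) (hub k x).1
    rw [Real.norm_of_nonneg h1]
    exact mul_le_one₀ (bump_le_one _ _) (hub k x).1 (hub k x).2
  let H : X → RB := fun x => BoundedContinuousFunction.ofNormedAddCommGroupDiscrete (H0 x) 1 (hH0b x)
  have hH : Continuous H := by
    refine continuous_bumps (fun x => |g x|) hg.abs (fun k => |g (t (φ k))|)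
      (fun m n h => hgr m n h) (fun k => ?_) 0 (fun x k h => ?_)
    · change Continuous fun x => bump |g x| |g (t (φ k))| * uu k x
      exact ((continuous_bump _).comp hg.abs).mul (hu k)
    · change bump |g x| |g (t (φ k))| * uu k x = 0
      rw [bump_far h, zero_mul]
  have hL : Continuous (AT.lift H) := continuous_lift hH
  -- coordinates
  have hcoord : ∀ (k : ℕ) (v : AT X), (AT.lift H v : RB) k = AT.lift (fun x => H0 x k) v := by
    intro k v
    let ev : RB →+ ℝ := ⟨⟨fun f => f k, rfl⟩, fun f g => rfl⟩
    have h1 : ev.comp (AT.lift H) = AT.lift (fun x => H0 x k) := by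
      apply hom_ext'
      intro x
      rw [AddMonoidHom.comp_apply, lift_of, lift_of]
      rfl
    exact congrArg (fun f : AT X →+ ℝ => f v) h1
  have hself : ∀ k, H0 (t (φ k)) k = 1 := by
    intro k
    change bump |g (t (φ k))| |g (t (φ k))| * uu k (t (φ k)) = 1
    rw [bump_self, hu1, one_mul]
  have hzero : ∀ k x, x ∈ lett (w (φ k)) ∪ lett z → x ≠ t (φ k) → H0 x k = 0 := by
    intro k x hx hne
    change bump |g x| |g (t (φ k))| * uu k x = 0
    rw [hu0 k x (Finset.mem_erase.2 ⟨hne, hx⟩), mul_zero]
  have hwk : ∀ k, (AT.lift H (w (φ k)) : RB) k = coef (w (φ k)) (t (φ k)) := by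
    intro k
    rw [hcoord]
    exact lift_eq_coef (hself k) fun x hx hne => hzero k x (Finset.mem_union_left _ hx) hne
  have hzk : ∀ k, (AT.lift H z : RB) k = coef z (t (φ k)) := by
    intro k
    rw [hcoord]
    exact lift_eq_coef (hself k) fun x hx hne => hzero k x (Finset.mem_union_right _ hx) hne
  -- the letters of `z` are bounded
  have hzlarge : ∀ᶠ k in atTop, coef z (t (φ k)) = 0 := by
    have hinj : Function.Injective fun k => t (φ k) := by
      intro m n h
      rcases lt_trichotomy m n with h1 | h1 | h1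
      · have := hgr m n h1
        simp only at h
        rw [h] at this
        linarith
      · exact h1
      · have := hgr n m h1
        simp only at h
        rw [h] at this
        linarith
    have hfin : {k | t (φ k) ∈ lett z}.Finite :=
      Set.Finite.preimage hinj.injOn (lett z).finite_toSet
    obtain ⟨b, hb⟩ := hfin.bddAbove
    filter_upwards [eventually_gt_atTop b] with k hk
    by_contra hne
    have := hb (show k ∈ {k | t (φ k) ∈ lett z} from mem_lett.2 hne)
    omega
  have hlim : Tendsto (fun k => dist (AT.lift H (w (φ k))) (AT.lift H z)) atTop (𝓝 0) := by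
    rw [← tendsto_iff_dist_tendsto_zero]
    exact ((hL.tendsto z).comp (hw.comp hφ.tendsto_atTop))
  obtain ⟨k, hk1, hk2⟩ := (hzlarge.and (hlim.eventually (gt_mem_nhds one_pos))).exists
  have h1 := BoundedContinuousFunction.dist_coe_le_dist (f := AT.lift H (w (φ k)))
    (g := AT.lift H z) k
  rw [hwk, hzk, hk1, Real.dist_eq, Int.cast_zero, sub_zero] at h1
  have h2 : coef (w (φ k)) (t (φ k)) ≠ 0 := mem_lett.1 (ht _)
  have h3 : (1 : ℝ) ≤ |(coef (w (φ k)) (t (φ k)) : ℝ)| := by
    have := Int.one_le_abs h2
    exact_mod_cast this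
  linarith

end bdd

end Pool.Agent.V11281.Snf
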