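import Pool.Agent.V11281.Snf.Dec

/-!
# Countable `sn`-networks and `cs`-networks of the levels of free abelian topological groups
-/

set_option autoImplicit false

open Set Topology Filter

namespace Pool.Agent.V11281.Snf

universe u

/-- sequential neighbourhoods -/
def IsSeqNbhd {Y : Type u} [TopologicalSpace Y] (P : Set Y) (y : Y) : Prop :=
  ∀ s : ℕ → Y, Tendsto s atTop (𝓝 y) → ∀ᶠ j in atTop, s j ∈ P

/-- `snf`-countable spaces -/
def SnfCountable (Y : Type u) [TopologicalSpace Y] : Prop :=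
  ∀ y : Y, ∃ PP : Set (Set Y), PP.Countable ∧ (∀ P ∈ PP, IsSeqNbhd P y) ∧
    (∀ U ∈ PP, ∀ V ∈ PP, ∃ W ∈ PP, W ⊆ U ∩ V) ∧
    ∀ U : Set Y, IsOpen U → y ∈ U → ∃ P ∈ PP, y ∈ P ∧ P ⊆ U

/-- `csf`-countable spaces -/
def CsfCountable (Y : Type u) [TopologicalSpace Y] : Prop :=
  ∀ y : Y, ∃ PP : Set (Set Y), PP.Countable ∧ (∀ P ∈ PP, y ∈ P) ∧
    ∀ s : ℕ → Y, Tendsto s atTop (𝓝 y) → ∀ U : Set Y, IsOpen U → y ∈ U →
      ∃ P ∈ PP, P ⊆ U ∧ ∀ᶠ j in atTop, s j ∈ P

/-- small sums -/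
lemma exists_small {G : Type u} [AddCommGroup G] [TopologicalSpace G] [IsTopologicalAddGroup G]
    (N : ℕ) : ∀ O : Set G, IsOpen O → (0 : G) ∈ O → ∃ V : Set G, IsOpen V ∧ (0 : G) ∈ V ∧
      ∀ L : List G, L.length ≤ N → (∀ p ∈ L, p ∈ V) → L.sum ∈ O := by
  induction N with
  | zero =>
    intro O hO h0
    refine ⟨O, hO, h0, fun L hL _ => ?_⟩
    have : L = [] := List.eq_nil_of_length_eq_zero (Nat.le_zero.1 hL)
    subst this
    simpa using h0
  | succ N ih =>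
    intro O hO h0
    have h1 : {p : G × G | p.1 + p.2 ∈ O} ∈ 𝓝 ((0 : G), (0 : G)) :=
      (hO.preimage continuous_add).mem_nhds (by simpa using h0)
    rw [nhds_prod_eq, mem_prod_iff] at h1
    obtain ⟨A, hA, B, hB, hAB⟩ := h1
    obtain ⟨A', hA', hA'o, h0A'⟩ := mem_nhds_iff.1 hA
    obtain ⟨B', hB', hB'o, h0B'⟩ := mem_nhds_iff.1 hB
    obtain ⟨V, hV, h0V, hVL⟩ := ih B' hB'o h0B'
    refine ⟨V ∩ A', hV.inter hA'o, ⟨h0V, h0A'⟩, fun L hL hp => ?_⟩
    rcases L with _ | ⟨p, L⟩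
    · simpa using h0
    · rw [List.sum_cons]
      have h2 : p ∈ A := hA' (hp p (by simp)).2
      have h3 : L.sum ∈ B := hB' (hVL L (by simpa using hL) fun q hq =>
        (hp q (List.mem_cons_of_mem _ hq)).1)
      exact hAB (show (p, L.sum) ∈ A ×ˢ B from ⟨h2, h3⟩)

variable {X : Type u} [TopologicalSpace X]

lemma zero_mem_An (n : ℕ) : (0 : AT X) ∈ An X n := by
  change alen (0 : AT X) ≤ n
  rw [alen_eq_zero.2 rfl]
  exact Nat.zero_le n

lemma sub_mem_An {n : ℕ} {w z : AT X} (hw : w ∈ An X n) (hz : z ∈ An X n) :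
    w - z ∈ An X (2 * n) := by
  have h1 := alen_add_le w (-z)
  rw [alen_neg, ← sub_eq_add_neg] at h1
  have h2 : alen w ≤ n := hw
  have h3 : alen z ≤ n := hz
  change alen (w - z) ≤ 2 * n
  omega

lemma An_mono {m n : ℕ} (h : m ≤ n) : An X m ⊆ An X n := fun _ hw => le_trans hw h

theorem snf_An [T35Space X] (hB : SeqB X) {M : ℕ} (hM : 2 ≤ M) (h : SnfCountable (An X M))
    (n : ℕ) : SnfCountable (An X n) := by
  intro z
  obtain ⟨PP, hPc, hPs0, hPd, hPU⟩ := h ⟨0, zero_mem_An M⟩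
  let Q : Set (An X M) → Set (An X n) := fun P =>
    {w | ∃ L : List (AT X), L.length ≤ 2 * n ∧ (∀ p ∈ L, p ∈ Subtype.val '' P) ∧
      (w : AT X) - z = L.sum}
  refine ⟨Q '' PP, hPc.image _, ?_, ?_, ?_⟩
  · rintro _ ⟨P, hP, rfl⟩ s hs
    by_contra hcon
    rw [not_eventually] at hcon
    obtain ⟨ψ, hψ, hψs⟩ := extraction_of_frequently_atTop hcon
    have hv0 : Tendsto (fun j => (s (ψ j) : AT X) - z) atTop (𝓝 0) := by
      have h1 : Tendsto (fun j => (s (ψ j) : AT X)) atTop (𝓝 (z : AT X)) :=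
        (continuous_subtype_val.tendsto z).comp (hs.comp hψ.tendsto_atTop)
      have h2 := h1.sub_const (z : AT X)
      rwa [sub_self] at h2
    obtain ⟨φ, hφ, Ps, hlen, hPs, hsum⟩ := dec hB (2 * n)
      (fun j => sub_mem_An (s (ψ j)).2 z.2) hv0
    have h1 : ∀ p ∈ Ps, ∀ᶠ j in atTop, p j ∈ Subtype.val '' P := by
      intro p hp
      obtain ⟨hp2, hp0⟩ := hPs p hp
      have h2 : Tendsto (fun j => (⟨p j, An_mono hM (hp2 j)⟩ : An X M)) atTop
          (𝓝 ⟨0, zero_mem_An M⟩) := by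
        rw [Topology.IsInducing.subtypeVal.tendsto_nhds_iff]
        exact hp0
      filter_upwards [hPs0 P hP _ h2] with j hj
      exact ⟨_, hj, rfl⟩
    have h2 : ∀ᶠ j in atTop, ∀ p ∈ Ps, p j ∈ Subtype.val '' P := by
      have h3 : ∀ L : List (ℕ → AT X), (∀ p ∈ L, ∀ᶠ j in atTop, p j ∈ Subtype.val '' P) →
          ∀ᶠ j in atTop, ∀ p ∈ L, p j ∈ Subtype.val '' P := by
        intro L
        induction L with
        | nil => intro _; simp
        | cons a L ih =>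
          intro hL
          filter_upwards [hL a (by simp), ih fun p hp => hL p (List.mem_cons_of_mem _ hp)]
            with j hj1 hj2 p hp
          rcases List.mem_cons.1 hp with rfl | hp
          · exact hj1
          · exact hj2 p hp
      exact h3 Ps h1
    obtain ⟨j, hj⟩ := h2.exists
    apply hψs (φ j)
    refine ⟨Ps.map fun p => p j, by simpa using hlen, ?_, hsum j⟩
    intro p hp
    obtain ⟨p', hp', rfl⟩ := List.mem_map.1 hp
    exact hj p' hp'
  · rintro _ ⟨P, hP, rfl⟩ _ ⟨P', hP', rfl⟩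
    obtain ⟨W, hW, hWs⟩ := hPd P hP P' hP'
    refine ⟨Q W, ⟨W, hW, rfl⟩, ?_⟩
    rintro w ⟨L, h1, h2, h3⟩
    refine ⟨⟨L, h1, fun p hp => ?_, h3⟩, ⟨L, h1, fun p hp => ?_, h3⟩⟩
    · obtain ⟨y, hy, rfl⟩ := h2 p hp
      exact ⟨y, (hWs hy).1, rfl⟩
    · obtain ⟨y, hy, rfl⟩ := h2 p hp
      exact ⟨y, (hWs hy).2, rfl⟩
  · intro U hU hzU
    obtain ⟨O, hO, rfl⟩ := isOpen_induced_iff.1 hU
    have hO' : IsOpen ((fun v : AT X => v + z) ⁻¹' O) :=
      hO.preimage (continuous_id.add continuous_const)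
    obtain ⟨V, hV, h0V, hVL⟩ := exists_small (2 * n) _ hO' (by
      change (0 : AT X) + z ∈ O
      rw [zero_add]
      exact hzU)
    obtain ⟨P, hP, h0P, hPV⟩ := hPU (Subtype.val ⁻¹' V) (hV.preimage continuous_subtype_val) h0V
    refine ⟨Q P, ⟨P, hP, rfl⟩, ⟨[], Nat.zero_le _, by simp, by simp⟩, ?_⟩
    rintro w ⟨L, h1, h2, h3⟩
    have h4 : L.sum ∈ (fun v : AT X => v + z) ⁻¹' O := hVL L h1 fun p hp => by
      obtain ⟨y, hy, rfl⟩ := h2 p hp
      exact hPV hy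
    rw [← h3] at h4
    have h5 : (w : AT X) - z + z ∈ O := h4
    rwa [sub_add_cancel] at h5

/-- countable `cs*`-networks give countable `cs`-networks -/
lemma csf_of_star {Y : Type u} [TopologicalSpace Y] {y : Y} {QQ : Set (Set Y)} (hc : QQ.Countable)
    (hy : ∀ Q ∈ QQ, y ∈ Q)
    (h : ∀ s : ℕ → Y, Tendsto s atTop (𝓝 y) → ∀ U : Set Y, IsOpen U → y ∈ U →
      ∃ Q ∈ QQ, Q ⊆ U ∧ ∃ᶠ j in atTop, s j ∈ Q) :
    ∃ PP : Set (Set Y), PP.Countable ∧ (∀ P ∈ PP, y ∈ P) ∧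
    ∀ s : ℕ → Y, Tendsto s atTop (𝓝 y) → ∀ U : Set Y, IsOpen U → y ∈ U →
      ∃ P ∈ PP, P ⊆ U ∧ ∀ᶠ j in atTop, s j ∈ P := by
  classical
  refine ⟨(fun F : Set (Set Y) => ⋃₀ F) '' {F | F.Finite ∧ F.Nonempty ∧ F ⊆ QQ}, ?_, ?_, ?_⟩
  · refine Set.Countable.image ?_ _
    refine (Set.countable_setOf_finite_subset hc).mono ?_
    rintro F ⟨h1, -, h2⟩
    exact ⟨h1, h2⟩
  · rintro _ ⟨F, ⟨-, ⟨Q, hQ⟩, hF⟩, rfl⟩
    exact ⟨Q, hQ, hy Q (hF hQ)⟩
  · intro s hs U hU hyU
    by_contra hcon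
    push Not at hcon
    obtain ⟨Q0, hQ0, hQ0U, -⟩ := h s hs U hU hyU
    have hG : {Q ∈ QQ | Q ⊆ U}.Countable := hc.mono fun Q hQ => hQ.1
    obtain ⟨T, hT⟩ := hG.exists_eq_range ⟨Q0, hQ0, hQ0U⟩
    have hTQ : ∀ i, T i ∈ QQ ∧ T i ⊆ U := by
      intro i
      have : T i ∈ {Q ∈ QQ | Q ⊆ U} := by rw [hT]; exact ⟨i, rfl⟩
      exact this
    have hfreq : ∀ k, ∃ᶠ j in atTop, ∀ i ≤ k, s j ∉ T i := by
      intro k
      have h1 := hcon (⋃₀ (T '' Iic k)) ⟨T '' Iic k, ⟨(finite_Iic k).image _,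
        ⟨T 0, 0, Nat.zero_le k, rfl⟩, by rintro _ ⟨i, -, rfl⟩; exact (hTQ i).1⟩, rfl⟩
        (by
          rintro a ⟨_, ⟨i, -, rfl⟩, ha⟩
          exact (hTQ i).2 ha)
      refine h1.mono fun j hj i hi hji => hj ⟨T i, ⟨i, hi, rfl⟩, hji⟩
    obtain ⟨φ, hφ, hφs⟩ := extraction_forall_of_frequently hfreq
    obtain ⟨Q, hQ, hQU, hQf⟩ := h (s ∘ φ) (hs.comp hφ.tendsto_atTop) U hU hyU
    obtain ⟨i, hi⟩ : ∃ i, T i = Q := by
      have : Q ∈ {Q ∈ QQ | Q ⊆ U} := ⟨hQ, hQU⟩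
      rw [hT] at this
      exact this
    obtain ⟨k, hk, hk'⟩ := (hQf.and_eventually (eventually_ge_atTop i)).exists
    exact hφs k i hk' (by rw [hi]; exact hk)

theorem csf_An [T35Space X] (hB : SeqB X) {M : ℕ} (hM : 2 ≤ M) (h : CsfCountable (An X M))
    (n : ℕ) : CsfCountable (An X n) := by
  classical
  intro z
  obtain ⟨PP, hPc, hP00, hPP⟩ := h ⟨0, zero_mem_An M⟩
  let Q : List (Set (An X M)) → Set (An X n) := fun Λ =>
    {w | ∃ L : List (An X M), List.Forall₂ (fun p P => p ∈ P) L Λ ∧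
      (w : AT X) - z = (L.map Subtype.val).sum}
  apply csf_of_star (QQ := Q '' {Λ | ∀ P ∈ Λ, P ∈ PP})
  · refine Set.Countable.image ?_ _
    haveI : Countable PP := hPc.to_subtype
    refine (Set.countable_range (List.map (Subtype.val : PP → Set (An X M)))).mono ?_
    intro Λ hΛ
    refine ⟨Λ.attach.map fun P => ⟨P.1, hΛ P.1 P.2⟩, ?_⟩
    rw [List.map_map]
    exact List.attach_map_subtype_val Λ
  · rintro _ ⟨Λ, hΛ, rfl⟩
    refine ⟨Λ.map fun _ => ⟨0, zero_mem_An M⟩, ?_, ?_⟩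
    · rw [List.forall₂_map_left_iff]
      have h1 : ∀ l : List (Set (An X M)), (∀ P ∈ l, P ∈ PP) →
          List.Forall₂ (fun (_ P : Set (An X M)) => (⟨0, zero_mem_An M⟩ : An X M) ∈ P) l l := by
        intro l
        induction l with
        | nil => intro _; exact List.Forall₂.nil
        | cons a l ih =>
          intro hl
          exact List.Forall₂.cons (hP00 a (hl a (by simp))) (ih fun P hP =>
            hl P (List.mem_cons_of_mem _ hP))
      exact h1 Λ hΛ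
    · simp
  · intro s hs U hU hzU
    obtain ⟨O, hO, rfl⟩ := isOpen_induced_iff.1 hU
    have hO' : IsOpen ((fun v : AT X => v + z) ⁻¹' O) :=
      hO.preimage (continuous_id.add continuous_const)
    obtain ⟨V, hV, h0V, hVL⟩ := exists_small (2 * n) _ hO' (by
      change (0 : AT X) + z ∈ O
      rw [zero_add]
      exact hzU)
    have hv0 : Tendsto (fun j => (s j : AT X) - z) atTop (𝓝 0) := by
      have h1 : Tendsto (fun j => (s j : AT X)) atTop (𝓝 (z : AT X)) :=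
        (continuous_subtype_val.tendsto z).comp hs
      have h2 := h1.sub_const (z : AT X)
      rwa [sub_self] at h2
    obtain ⟨φ, hφ, Ps, hlen, hPs, hsum⟩ := dec hB (2 * n) (fun j => sub_mem_An (s j).2 z.2) hv0
    -- choose members of the network
    have h1 : ∀ L : List (ℕ → AT X), (∀ p ∈ L, (∀ j, p j ∈ An X 2) ∧ Tendsto p atTop (𝓝 0)) →
        ∃ Λ : List (Set (An X M)), Λ.length = L.length ∧
          (∀ P ∈ Λ, P ∈ PP ∧ P ⊆ Subtype.val ⁻¹' V) ∧
          ∀ᶠ j in atTop, ∃ L' : List (An X M), List.Forall₂ (fun p P => p ∈ P) L' Λ ∧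
            (L'.map Subtype.val) = L.map fun p => p j := by
      intro L
      induction L with
      | nil =>
        intro _
        exact ⟨[], rfl, by simp, Eventually.of_forall fun j => ⟨[], List.Forall₂.nil, rfl⟩⟩
      | cons p L ih =>
        intro hL
        obtain ⟨Λ, hlen, hΛ, hev⟩ := ih fun q hq => hL q (List.mem_cons_of_mem _ hq)
        obtain ⟨hp2, hp0⟩ := hL p (by simp)
        have h2 : Tendsto (fun j => (⟨p j, An_mono hM (hp2 j)⟩ : An X M)) atTop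
            (𝓝 ⟨0, zero_mem_An M⟩) := by
          rw [Topology.IsInducing.subtypeVal.tendsto_nhds_iff]
          exact hp0
        obtain ⟨P, hP, hPV, hPe⟩ := hPP _ h2 (Subtype.val ⁻¹' V)
          (hV.preimage continuous_subtype_val) h0V
        refine ⟨P :: Λ, by simp [hlen], ?_, ?_⟩
        · intro R hR
          rcases List.mem_cons.1 hR with rfl | hR
          · exact ⟨hP, hPV⟩
          · exact hΛ R hR
        · filter_upwards [hev, hPe] with j hj1 hj2
          obtain ⟨L', hL'1, hL'2⟩ := hj1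
          exact ⟨⟨p j, An_mono hM (hp2 j)⟩ :: L', List.Forall₂.cons hj2 hL'1, by simp [hL'2]⟩
    obtain ⟨Λ, hΛlen, hΛ, hev⟩ := h1 Ps hPs
    refine ⟨Q Λ, ⟨Λ, fun P hP => (hΛ P hP).1, rfl⟩, ?_, ?_⟩
    · rintro w ⟨L, hL1, hL2⟩
      have h4 : (L.map Subtype.val).sum ∈ (fun v : AT X => v + z) ⁻¹' O := by
        apply hVL
        · rw [List.length_map, hL1.length_eq, hΛlen]
          exact hlen
        · intro p hp
          obtain ⟨p', hp', rfl⟩ := List.mem_map.1 hp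
          have h5 : ∀ (L : List (An X M)) (Λ : List (Set (An X M))),
              List.Forall₂ (fun p P => p ∈ P) L Λ → (∀ P ∈ Λ, P ⊆ Subtype.val ⁻¹' V) →
              ∀ p ∈ L, (p : AT X) ∈ V := by
            intro L Λ h
            induction h with
            | nil => intro _ p hp; simp at hp
            | cons h _ ih =>
              intro hΛ p hp
              rcases List.mem_cons.1 hp with rfl | hp
              · exact hΛ _ (by simp) h
              · exact ih (fun P hP => hΛ P (List.mem_cons_of_mem _ hP)) p hp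
          exact h5 L Λ hL1 (fun P hP => (hΛ P hP).2) p' hp'
      rw [← hL2] at h4
      have h5 : (w : AT X) - z + z ∈ O := h4
      rwa [sub_add_cancel] at h5
    · have h2 : ∃ᶠ j in atTop, s (φ j) ∈ Q Λ := by
        refine Eventually.frequently ?_
        filter_upwards [hev] with j hj
        obtain ⟨L', h3, h4⟩ := hj
        refine ⟨L', h3, ?_⟩
        rw [h4]
        exact hsum j
      exact hφ.tendsto_atTop.frequently h2

end Pool.Agent.V11281.Snf
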