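import Pool.Agent.V11281.Snf.Ab

/-!
# Decomposition of null sequences of words of bounded length into null sequences of length two
-/

set_option autoImplicit false

open Set Topology Filter
open scoped Pointwise

namespace Pool.Agent.V11281.Snf

universe u v

section rep

variable {X : Type u}

/-- signed letters -/
noncomputable def E3A (p : X × Fin 3) : AT X :=
  if p.2 = 0 then 0 else if p.2 = 1 then AT.of p.1 else -AT.of p.1

lemma E3A_zero (x : X) : E3A (x, 0) = 0 := if_pos rfl

lemma E3A_one (x : X) : E3A (x, 1) = AT.of x := by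
  unfold E3A
  rw [if_neg (show ¬(1 : Fin 3) = 0 by decide), if_pos rfl]

lemma E3A_two (x : X) : E3A (x, 2) = -AT.of x := by
  unfold E3A
  rw [if_neg (show ¬(2 : Fin 3) = 0 by decide), if_neg (show ¬(2 : Fin 3) = 1 by decide)]

lemma alen_E3A (p : X × Fin 3) : alen (E3A p) ≤ 1 := by
  obtain ⟨x, k⟩ := p
  fin_cases k
  · change alen (E3A (x, 0)) ≤ 1
    rw [E3A_zero, alen_eq_zero.2 rfl]
    exact zero_le_one
  · change alen (E3A (x, 1)) ≤ 1
    rw [E3A_one, alen_of]
  · change alen (E3A (x, 2)) ≤ 1
    rw [E3A_two, alen_neg, alen_of]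

lemma coef_neg (w : AT X) (x : X) : coef (-w) x = -coef w x := Finsupp.neg_apply _ _

lemma coef_E3A (p : X × Fin 3) (x : X) : coef (E3A p) x = 0 ∨
    (coef (E3A p) x = 1 ∧ E3A p = AT.of x) ∨ (coef (E3A p) x = -1 ∧ E3A p = -AT.of x) := by
  obtain ⟨y, k⟩ := p
  fin_cases k
  · left
    change coef (E3A (y, 0)) x = 0
    rw [E3A_zero, coef_zero]
  · change coef (E3A (y, 1)) x = 0 ∨ (coef (E3A (y, 1)) x = 1 ∧ E3A (y, 1) = AT.of x) ∨
      (coef (E3A (y, 1)) x = -1 ∧ E3A (y, 1) = -AT.of x)
    rw [E3A_one]
    by_cases h : y = x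
    · subst h
      right; left
      exact ⟨coef_of_self y, rfl⟩
    · left
      exact coef_of_ne h
  · change coef (E3A (y, 2)) x = 0 ∨ (coef (E3A (y, 2)) x = 1 ∧ E3A (y, 2) = AT.of x) ∨
      (coef (E3A (y, 2)) x = -1 ∧ E3A (y, 2) = -AT.of x)
    rw [E3A_two]
    by_cases h : y = x
    · subst h
      right; right
      refine ⟨?_, rfl⟩
      rw [coef_neg, coef_of_self]
    · left
      rw [coef_neg, coef_of_ne h, neg_zero]

lemma exists_rep (x0 : X) (N : ℕ) : ∀ w : AT X, alen w ≤ N → ∃ q : Fin N → X × Fin 3,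
    w = ∑ i, E3A (q i) ∧ ∀ i, (q i).1 = x0 ∨ (q i).1 ∈ lett w := by
  classical
  induction N with
  | zero =>
    intro w hw
    have : w = 0 := alen_eq_zero.1 (Nat.le_zero.1 hw)
    subst this
    exact ⟨fun i => i.elim0, by simp, fun i => i.elim0⟩
  | succ N ih =>
    intro w hw
    by_cases hw0 : w = 0
    · subst hw0
      refine ⟨fun _ => (x0, 0), ?_, fun i => Or.inl rfl⟩
      simp [E3A_zero]
    · obtain ⟨x, hx⟩ : ∃ x, coef w x ≠ 0 := by
        by_contra hcon
        push Not at hcon
        exact hw0 (AT_ext hcon)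
      obtain ⟨k, hk1, hk2⟩ : ∃ k : Fin 3, (coef (w - E3A (x, k)) x).natAbs + 1 =
          (coef w x).natAbs ∧ ∀ y, y ≠ x → coef (E3A (x, k)) y = 0 := by
        rcases lt_or_gt_of_ne hx with h | h
        · refine ⟨2, ?_, fun y hy => ?_⟩
          · rw [coef_sub, E3A_two, coef_neg, coef_of_self]
            omega
          · rw [E3A_two, coef_neg, coef_of_ne (Ne.symm hy), neg_zero]
        · refine ⟨1, ?_, fun y hy => ?_⟩
          · rw [coef_sub, E3A_one, coef_of_self]
            omega
          · rw [E3A_one, coef_of_ne (Ne.symm hy)]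
      set w' := w - E3A (x, k) with hw'
      have hsub : lett w' ⊆ lett w := by
        intro y hy
        rw [mem_lett] at hy ⊢
        by_cases hyx : y = x
        · rw [hyx]; exact hx
        · rwa [hw', coef_sub, hk2 y hyx, sub_zero] at hy
      have hxl : x ∈ lett w := mem_lett.2 hx
      have hlen : alen w' ≤ N := by
        have h1 := alen_eq_sum (w := w) (s := lett w) (Finset.Subset.refl _)
        have h2 := alen_eq_sum (w := w') (s := lett w) hsub
        rw [← Finset.add_sum_erase _ _ hxl] at h1 h2
        have h3 : ∑ y ∈ (lett w).erase x, (coef w' y).natAbs =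
            ∑ y ∈ (lett w).erase x, (coef w y).natAbs := by
          refine Finset.sum_congr rfl fun y hy => ?_
          rw [hw', coef_sub, hk2 y (Finset.ne_of_mem_erase hy), sub_zero]
        omega
      obtain ⟨q, hq, hql⟩ := ih w' hlen
      refine ⟨Fin.cons (x, k) q, ?_, fun i => ?_⟩
      · rw [Fin.sum_univ_succ]
        simp only [Fin.cons_zero, Fin.cons_succ]
        rw [← hq, hw']
        abel
      · refine Fin.cases ?_ (fun i => ?_) i
        · right
          simpa using hxl
        · simp only [Fin.cons_succ]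
          rcases hql i with h | h
          · exact Or.inl h
          · exact Or.inr (hsub h)

end rep

section dec

variable {X : Type u} [TopologicalSpace X] [T35Space X]

lemma continuous_E3A : Continuous (E3A : X × Fin 3 → AT X) := by
  rw [continuous_prod_of_discrete_right]
  intro b
  fin_cases b
  · change Continuous fun x : X => E3A (x, 0)
    simp only [E3A_zero]
    exact continuous_const
  · change Continuous fun x : X => E3A (x, 1)
    simp only [E3A_one]
    exact continuous_of
  · change Continuous fun x : X => E3A (x, 2)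
    simp only [E3A_two]
    exact continuous_of.neg

lemma fbdd_or {w : ℕ → AT X} {z : AT X} (hw : Tendsto w atTop (𝓝 z)) {t : ℕ → X} {x0 : X}
    (ht : ∀ j, t j = x0 ∨ t j ∈ lett (w j)) : FBdd t := by
  classical
  intro g hg
  by_cases hJ : {j | t j ∈ lett (w j)}.Infinite
  · have h1 : FBdd (t ∘ Nat.nth fun j => t j ∈ lett (w j)) :=
      fbdd_letters (hw.comp (Nat.nth_strictMono hJ).tendsto_atTop)
        fun n => Nat.nth_mem_of_infinite hJ n
    obtain ⟨C, hC⟩ := h1 g hg
    refine ⟨max C |g x0|, fun j => ?_⟩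
    rcases ht j with h | h
    · rw [h]; exact le_max_right _ _
    · obtain ⟨n, -, hn⟩ := Nat.exists_lt_card_nth_eq (p := fun j => t j ∈ lett (w j)) h
      have := hC n
      simp only [Function.comp] at this
      rw [hn] at this
      exact this.trans (le_max_left _ _)
  · rw [not_infinite] at hJ
    obtain ⟨C, hC⟩ := (hJ.image fun j => |g (t j)|).bddAbove
    refine ⟨max C |g x0|, fun j => ?_⟩
    rcases ht j with h | h
    · rw [h]; exact le_max_right _ _
    · exact (hC ⟨j, h, rfl⟩).trans (le_max_left _ _)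

omit [T35Space X] in
lemma extract (hB : SeqB X) {ι : Type*} (s : Finset ι) (q : ι → ℕ → X × Fin 3)
    (hq : ∀ i, FBdd fun j => (q i j).1) :
    ∃ φ : ℕ → ℕ, StrictMono φ ∧ ∀ i ∈ s, ∃ D, Tendsto (q i ∘ φ) atTop (𝓝 D) := by
  classical
  induction s using Finset.induction_on with
  | empty => exact ⟨id, strictMono_id, by simp⟩
  | insert a s ha ih =>
    obtain ⟨φ, hφ, hs⟩ := ih
    obtain ⟨ψ, c, hψ, hc⟩ := hB _ ((hq a).comp φ)
    obtain ⟨k, -, χ, hχ, hk⟩ := (isCompact_univ (X := Fin 3)).tendsto_subseq
      (x := fun j => (q a (φ (ψ j))).2) fun _ => mem_univ _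
    refine ⟨φ ∘ ψ ∘ χ, hφ.comp (hψ.comp hχ), fun i hi => ?_⟩
    rcases Finset.mem_insert.1 hi with rfl | hi
    · exact ⟨(c, k), (hc.comp hχ.tendsto_atTop).prodMk_nhds hk⟩
    · obtain ⟨D, hD⟩ := hs i hi
      exact ⟨D, hD.comp (hψ.comp hχ).tendsto_atTop⟩

/-- cancellation of pairs -/
lemma canc {ι : Type*} [DecidableEq ι] (q : ι → ℕ → X × Fin 3) (D : ι → X × Fin 3)
    (n : ℕ) : ∀ s : Finset ι, (∀ i ∈ s, Tendsto (q i) atTop (𝓝 (D i))) → s.card ≤ n →
    ∑ i ∈ s, E3A (D i) = 0 →
    ∃ Ps : List (ℕ → AT X), Ps.length ≤ n ∧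
      (∀ p ∈ Ps, (∀ j, p j ∈ An X 2) ∧ Tendsto p atTop (𝓝 0)) ∧
      ∀ j, ∑ i ∈ s, E3A (q i j) = (Ps.map fun p => p j).sum := by
  induction n with
  | zero =>
    intro s _ hs _
    have : s = ∅ := Finset.card_eq_zero.1 (Nat.le_zero.1 hs)
    subst this
    exact ⟨[], le_refl _, by simp, by simp⟩
  | succ n ih =>
    intro s hq hs h0
    rcases s.eq_empty_or_nonempty with rfl | ⟨i, hi⟩
    · exact ⟨[], Nat.zero_le _, by simp, by simp⟩
    have hsum := Finset.add_sum_erase s (fun i => E3A (D i)) hi
    rw [h0] at hsum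
    by_cases hDi : E3A (D i) = 0
    · rw [hDi, zero_add] at hsum
      obtain ⟨Ps, hlen, hPs, hsumq⟩ := ih (s.erase i) (fun l hl => hq l (Finset.mem_of_mem_erase hl))
        (by rw [Finset.card_erase_of_mem hi]; omega) hsum
      refine ⟨(fun j => E3A (q i j)) :: Ps, by simpa using hlen, ?_, fun j => ?_⟩
      · intro p hp
        rcases List.mem_cons.1 hp with rfl | hp
        · refine ⟨fun j => (alen_E3A _).trans one_le_two, ?_⟩
          rw [← hDi]
          exact (continuous_E3A.tendsto _).comp (hq i hi)
        · exact hPs p hp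
      · rw [List.map_cons, List.sum_cons, ← hsumq,
          ← Finset.add_sum_erase s (fun l => E3A (q l j)) hi]
    · obtain ⟨i', hi', hneg⟩ : ∃ i' ∈ s.erase i, E3A (D i') = -E3A (D i) := by
        by_contra hcon
        push Not at hcon
        have hx := coef_E3A (D i) (D i).1
        have hcoefsum : ∀ (T : Finset ι) (x : X), coef (∑ l ∈ T, E3A (D l)) x =
            ∑ l ∈ T, coef (E3A (D l)) x := by
          intro T x
          induction T using Finset.induction_on with
          | empty => simp [coef_zero]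
          | insert a T ha ihT => rw [Finset.sum_insert ha, Finset.sum_insert ha, coef_add, ihT]
        have h1 := congrArg (fun w => coef w (D i).1) hsum
        simp only [coef_add, coef_zero, hcoefsum] at h1
        rcases hx with hx | ⟨hx, hE⟩ | ⟨hx, hE⟩
        · -- the coefficient of a letter at itself is not zero
          apply hDi
          have haux : ∀ d : X × Fin 3, coef (E3A d) d.1 = 0 → E3A d = 0 := by
            rintro ⟨x, k⟩ hx
            fin_cases k
            · exact E3A_zero x
            · exfalso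
              change coef (E3A (x, 1)) x = 0 at hx
              rw [E3A_one, coef_of_self] at hx
              omega
            · exfalso
              change coef (E3A (x, 2)) x = 0 at hx
              rw [E3A_two, coef_neg, coef_of_self] at hx
              omega
          exact haux _ hx
        · rw [hx] at h1
          have h2 : 0 ≤ ∑ l ∈ s.erase i, coef (E3A (D l)) (D i).1 := by
            refine Finset.sum_nonneg fun l hl => ?_
            rcases coef_E3A (D l) (D i).1 with h | ⟨h, -⟩ | ⟨h, hEl⟩
            · rw [h]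
            · rw [h]; exact zero_le_one
            · exact absurd (by rw [hEl, hE]) (hcon l hl)
          omega
        · rw [hx] at h1
          have h2 : ∑ l ∈ s.erase i, coef (E3A (D l)) (D i).1 ≤ 0 := by
            refine Finset.sum_nonpos fun l hl => ?_
            rcases coef_E3A (D l) (D i).1 with h | ⟨h, hEl⟩ | ⟨h, -⟩
            · rw [h]
            · exact absurd (by rw [hEl, hE, neg_neg]) (hcon l hl)
            · rw [h]; omega
          omega
      have hsum2 := Finset.add_sum_erase (s.erase i) (fun i => E3A (D i)) hi'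
      have hz : ∑ l ∈ (s.erase i).erase i', E3A (D l) = 0 := by
        rw [← hsum2] at hsum
        simp only [hneg] at hsum
        rw [← add_assoc, add_neg_cancel, zero_add] at hsum
        exact hsum
      have hcard : ((s.erase i).erase i').card ≤ n := by
        rw [Finset.card_erase_of_mem hi', Finset.card_erase_of_mem hi]
        omega
      obtain ⟨Ps, hlen, hPs, hsumq⟩ := ih _
        (fun l hl => hq l (Finset.mem_of_mem_erase (Finset.mem_of_mem_erase hl))) hcard hz
      refine ⟨(fun j => E3A (q i j) + E3A (q i' j)) :: Ps, by simpa using hlen, ?_, fun j => ?_⟩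
      · intro p hp
        rcases List.mem_cons.1 hp with rfl | hp
        · refine ⟨fun j => ?_, ?_⟩
          · have h1 := alen_add_le (E3A (q i j)) (E3A (q i' j))
            have h2 := alen_E3A (q i j)
            have h3 := alen_E3A (q i' j)
            exact h1.trans (by omega)
          · have h1 : Tendsto (fun j => E3A (q i j)) atTop (𝓝 (E3A (D i))) :=
              (continuous_E3A.tendsto _).comp (hq i hi)
            have h2 : Tendsto (fun j => E3A (q i' j)) atTop (𝓝 (E3A (D i'))) :=
              (continuous_E3A.tendsto _).comp (hq i' (Finset.mem_of_mem_erase hi'))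
            have h3 := h1.add h2
            rwa [hneg, add_neg_cancel] at h3
        · exact hPs p hp
      · rw [List.map_cons, List.sum_cons, ← hsumq,
          ← Finset.add_sum_erase s (fun l => E3A (q l j)) hi,
          ← Finset.add_sum_erase (s.erase i) (fun l => E3A (q l j)) hi', add_assoc]

/-- **Decomposition.** A null sequence of words of length at most `N` has a subsequence which is
a sum of at most `N` null sequences of words of length at most two. -/
theorem dec (hB : SeqB X) (N : ℕ) {v : ℕ → AT X} (hv : ∀ j, v j ∈ An X N)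
    (h0 : Tendsto v atTop (𝓝 0)) :
    ∃ φ : ℕ → ℕ, StrictMono φ ∧ ∃ Ps : List (ℕ → AT X), Ps.length ≤ N ∧
      (∀ p ∈ Ps, (∀ j, p j ∈ An X 2) ∧ Tendsto p atTop (𝓝 0)) ∧
      ∀ j, v (φ j) = (Ps.map fun p => p j).sum := by
  classical
  rcases isEmpty_or_nonempty X with hX | ⟨⟨x0⟩⟩
  · refine ⟨id, strictMono_id, [], Nat.zero_le _, by simp, fun j => ?_⟩
    simp only [id, List.map_nil, List.sum_nil]
    exact AT_ext fun x => hX.elim x
  choose q hq hql using fun j => exists_rep x0 N (v j) (hv j)
  have hF : ∀ i : Fin N, FBdd fun j => (q j i).1 := fun i =>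
    fbdd_or h0 (x0 := x0) fun j => hql j i
  obtain ⟨φ, hφ, hD⟩ := extract hB Finset.univ (fun i j => q j i) hF
  choose D hD using fun i => hD i (Finset.mem_univ i)
  refine ⟨φ, hφ, ?_⟩
  have hsum : ∑ i, E3A (D i) = 0 := by
    have h1 : Tendsto (fun j => ∑ i, E3A (q (φ j) i)) atTop (𝓝 (∑ i, E3A (D i))) :=
      tendsto_finsetSum _ fun i _ => (continuous_E3A.tendsto _).comp (hD i)
    have h2 : Tendsto (fun j => ∑ i, E3A (q (φ j) i)) atTop (𝓝 0) := by
      refine (h0.comp hφ.tendsto_atTop).congr fun j => ?_
      exact hq _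
    exact tendsto_nhds_unique h1 h2
  obtain ⟨Ps, h1, h2, h3⟩ := canc (fun i j => q (φ j) i) D N Finset.univ (fun i _ => hD i)
    (by simp) hsum
  exact ⟨Ps, h1, h2, fun j => (hq _).trans (h3 j)⟩

end dec

end Pool.Agent.V11281.Snf
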