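import Pool.Agent.V11281.Snf.Count
import Pool.Agent.V11281.F4.Haus

/-!
# Convergent sequences of words of length at most three in free topological groups
-/

set_option autoImplicit false

open Set Topology Filter

namespace Pool.Agent.V11281.Snf3

open Pool.Agent.V11281.F4

universe u v

section hausdorff

variable {X : Type u} [TopologicalSpace X] [T35Space X]

/-- a continuous function separating the points of a finite set -/
lemma exists_idx (F : Finset X) : ∃ p : X → ℝ, Continuous p ∧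
    ∀ x ∈ F, ∀ y ∈ F, x ≠ y → 1 ≤ |p x - p y| := by
  classical
  have h : ∀ x : X, ∃ h : X → ℝ, Continuous h ∧ h x = 1 ∧ (∀ y ∈ F.erase x, h y = 0) ∧
      ∀ y, 0 ≤ h y ∧ h y ≤ 1 := fun x => Snf.exists_sep x (F.erase x) (by simp)
  choose h hc h1 h0 _ using h
  let idx : X → ℝ := fun x => if hx : x ∈ F then ((F.equivFin ⟨x, hx⟩ : ℕ) : ℝ) else 0
  have hval : ∀ y ∈ F, ∑ x ∈ F, idx x * h x y = idx y := by
    intro y hy
    rw [Finset.sum_eq_single_of_mem y hy, h1, mul_one]
    intro x hx hxy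
    rw [h0 x y (Finset.mem_erase.2 ⟨Ne.symm hxy, hy⟩), mul_zero]
  refine ⟨fun y => ∑ x ∈ F, idx x * h x y, ?_, fun x hx y hy hxy => ?_⟩
  · exact continuous_finsetSum _ fun x _ => (hc x).const_mul _
  · change 1 ≤ |∑ z ∈ F, idx z * h z x - ∑ z ∈ F, idx z * h z y|
    rw [hval x hx, hval y hy]
    simp only [idx, dif_pos hx, dif_pos hy]
    have h3 : (F.equivFin ⟨x, hx⟩ : ℕ) ≠ (F.equivFin ⟨y, hy⟩ : ℕ) := by
      intro h
      apply hxy
      have h4 := F.equivFin.injective (Fin.ext h)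
      exact congrArg Subtype.val h4
    have h4 : ((F.equivFin ⟨x, hx⟩ : ℕ) : ℤ) - (F.equivFin ⟨y, hy⟩ : ℕ) ≠ 0 := by
      omega
    have h5 := Int.one_le_abs h4
    exact_mod_cast h5

open Haus in
/-- the free topological group of a Tychonoff space is Hausdorff -/
instance : T2Space (FT X) := by
  classical
  apply IsTopologicalGroup.t2Space_of_one_sep
  intro w hw
  obtain ⟨p, hpc, hp⟩ : ∃ p : X → ℝ, Continuous p ∧ ∀ y ∈ wd w, ∀ z ∈ wd w, y.1 ≠ z.1 →
      1 ≤ |p y.1 - p z.1| := by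
    obtain ⟨p, hpc, hp⟩ := exists_idx ((wd w).map Prod.fst).toFinset
    refine ⟨p, hpc, fun y hy z hz hyz => hp _ ?_ _ ?_ hyz⟩
    · simp only [List.mem_toFinset, List.mem_map]
      exact ⟨y, hy, rfl⟩
    · simp only [List.mem_toFinset, List.mem_map]
      exact ⟨z, hz, rfl⟩
  have hcont : Continuous (hom p) := continuous_lift (continuous_Hm hpc)
  have hval : Continuous fun a : FT X => (hom p a : Matrix (Fin 2) (Fin 2) ℝ) 1 0 := by
    have h1 : Continuous fun a : FT X => (hom p a : Matrix (Fin 2) (Fin 2) ℝ) :=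
      Units.continuous_val.comp hcont
    exact h1.matrix_elem 1 0
  refine ⟨(fun a : FT X => (hom p a : Matrix (Fin 2) (Fin 2) ℝ) 1 0) ⁻¹'
    {(hom p w : Matrix (Fin 2) (Fin 2) ℝ) 1 0}ᶜ, ?_, fun h => h rfl⟩
  refine (isOpen_compl_singleton.preimage hval).mem_nhds ?_
  rcases hL : wd w with _ | ⟨⟨x, b⟩, L⟩
  · exact absurd (wd_eq_nil.1 hL) hw
  · have h1 := hom_cone p x b L (by rw [← hL]; exact hp) (by rw [← hL]; exact wd_reduced w)
    rw [← hL, mkL_wd] at h1
    intro h2
    have h3 : (hom p w : Matrix (Fin 2) (Fin 2) ℝ) 1 0 = 0 := by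
      have h4 : (hom p (1 : FT X) : Matrix (Fin 2) (Fin 2) ℝ) 1 0 =
        (hom p w : Matrix (Fin 2) (Fin 2) ℝ) 1 0 := h2
      rw [← h4, map_one]
      simp
    have h4 := h1.1
    rw [h3] at h4
    have h5 := sq_nonneg ((hom p w : Matrix (Fin 2) (Fin 2) ℝ) 0 0 - p x * 0)
    linarith

end hausdorff

section affine

/-- the affine matrices over a commutative ring -/
def Aff {R : Type*} [CommRing R] (r s : R) (h : r * s = 1) : (Matrix (Fin 2) (Fin 2) R)ˣ where
  val := !![r, 1; 0, 1]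
  inv := !![s, -s; 0, 1]
  val_inv := by
    ext i j; fin_cases i <;> fin_cases j <;> simp [Matrix.mul_apply, Fin.sum_univ_two, h]
  inv_val := by
    ext i j; fin_cases i <;> fin_cases j <;>
      simp [Matrix.mul_apply, Fin.sum_univ_two, mul_comm s r, h]

lemma continuous_Aff {R : Type*} [CommRing R] [TopologicalSpace R] [IsTopologicalRing R]
    {Y : Type*} [TopologicalSpace Y] {r s : Y → R} (hr : Continuous r) (hs : Continuous s)
    (h : ∀ y, r y * s y = 1) : Continuous fun y => Aff (r y) (s y) (h y) := by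
  rw [Units.continuous_iff]
  constructor
  · refine continuous_matrix fun i j => ?_
    fin_cases i <;> fin_cases j <;> simp [Aff] <;> fun_prop
  · refine continuous_matrix fun i j => ?_
    fin_cases i <;> fin_cases j <;> simp [Aff] <;> fun_prop

variable {X : Type u} [TopologicalSpace X]

/-- the corner entries of conjugates -/
lemma corner (r s : X → ℝ) (h : ∀ x, r x * s x = 1) {t y : X} (b c : Bool)
    (hy : r y = 1) (L : FT X) (hL : L = mkL [(t, b), (y, c), (t, !b)]) :
    ((FT.lift (fun x => Aff (r x) (s x) (h x)) L : (Matrix (Fin 2) (Fin 2) ℝ)ˣ) :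
      Matrix (Fin 2) (Fin 2) ℝ) 0 1 = cond b (r t) (s t) * cond c 1 (-1) := by
  subst hL
  have hs : s y = 1 := by
    have := h y
    rwa [hy, one_mul] at this
  have ht := h t
  have ht' : s t * r t = 1 := by rw [mul_comm]; exact ht
  rw [lift_mkL]
  cases b <;> cases c <;>
    simp [Aff, Matrix.mul_apply, Fin.sum_univ_two, hy, hs, Units.val_mul, ht, mul_add]

lemma lift_congr {G : Type*} [Group G] {f g : X → G} {w : FT X}
    (h : ∀ p ∈ wd w, f p.1 = g p.1) : FT.lift f w = FT.lift g w := by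
  rw [← mkL_wd w, lift_mkL, lift_mkL]
  congr 1
  apply List.map_congr_left
  intro p hp
  rw [h p hp]

end affine

section bdd

variable {X : Type u} [TopologicalSpace X]

lemma fbdd_of_split {t : ℕ → X} (P : ℕ → Prop)
    (h1 : ∀ φ : ℕ → ℕ, StrictMono φ → (∀ j, P (φ j)) → Snf.FBdd (t ∘ φ))
    (h2 : ∀ φ : ℕ → ℕ, StrictMono φ → (∀ j, ¬ P (φ j)) → Snf.FBdd (t ∘ φ)) : Snf.FBdd t := by
  classical
  intro g hg
  have key : ∀ Q : ℕ → Prop, (∀ φ : ℕ → ℕ, StrictMono φ → (∀ j, Q (φ j)) → Snf.FBdd (t ∘ φ)) →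
      ∃ C : ℝ, ∀ j, Q j → |g (t j)| ≤ C := by
    intro Q hQ
    by_cases hJ : {j | Q j}.Infinite
    · have h3 := hQ (Nat.nth Q) (Nat.nth_strictMono hJ) fun n => Nat.nth_mem_of_infinite hJ n
      obtain ⟨C, hC⟩ := h3 g hg
      refine ⟨C, fun j hj => ?_⟩
      obtain ⟨n, -, hn⟩ := Nat.exists_lt_card_nth_eq (p := Q) hj
      have := hC n
      simp only [Function.comp] at this
      rwa [hn] at this
    · rw [not_infinite] at hJ
      obtain ⟨C, hC⟩ := (hJ.image fun j => |g (t j)|).bddAbove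
      exact ⟨C, fun j hj => hC ⟨j, hj, rfl⟩⟩
  obtain ⟨C1, hC1⟩ := key P h1
  obtain ⟨C2, hC2⟩ := key (fun j => ¬ P j) h2
  refine ⟨max C1 C2, fun j => ?_⟩
  by_cases hj : P j
  · exact (hC1 j hj).trans (le_max_left _ _)
  · exact (hC2 j hj).trans (le_max_right _ _)

variable [T35Space X]

/-- conjugates of letters -/
lemma fbdd_conj {w : ℕ → FT X} {z : FT X} (hw : Tendsto w atTop (𝓝 z)) {t y : ℕ → X}
    {b c : ℕ → Bool} (hty : ∀ j, y j ≠ t j)
    (hwj : ∀ j, w j = mkL [(t j, b j), (y j, c j), (t j, !(b j))]) : Snf.FBdd t := by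
  classical
  intro g hg
  by_contra hcon
  push Not at hcon
  obtain ⟨φ, hφ, hgr⟩ := Snf.exists_growing hcon
  let F : Finset X := ((wd z).map Prod.fst).toFinset
  have hsep : ∀ k, ∃ h : X → ℝ, Continuous h ∧ h (t (φ k)) = 1 ∧
      (∀ x ∈ (insert (y (φ k)) F).erase (t (φ k)), h x = 0) ∧ ∀ x, 0 ≤ h x ∧ h x ≤ 1 :=
    fun k => Snf.exists_sep _ _ (by simp)
  choose uu hu hu1 hu0 hub using hsep
  let H0 : X → ℕ → ℝ := fun x k => 1 + 2 * (Snf.bump |g x| |g (t (φ k))| * uu k x)
  have hb : ∀ x k, 0 ≤ Snf.bump |g x| |g (t (φ k))| * uu k x ∧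
      Snf.bump |g x| |g (t (φ k))| * uu k x ≤ 1 := fun x k =>
    ⟨mul_nonneg (Snf.bump_nonneg _ _) (hub k x).1,
      mul_le_one₀ (Snf.bump_le_one _ _) (hub k x).1 (hub k x).2⟩
  have hH1 : ∀ x k, 1 ≤ H0 x k ∧ H0 x k ≤ 3 := by
    intro x k
    have h1 := hb x k
    simp only [H0]
    constructor <;> linarith
  have hH0b : ∀ x k, ‖H0 x k‖ ≤ 3 := by
    intro x k
    have h1 := hH1 x k
    rw [Real.norm_of_nonneg (by linarith)]
    exact h1.2
  have hH0i : ∀ x k, ‖(H0 x k)⁻¹‖ ≤ 3 := by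
    intro x k
    have h1 := hH1 x k
    rw [Real.norm_of_nonneg (inv_nonneg.2 (by linarith))]
    have h2 : (H0 x k)⁻¹ ≤ 1 := inv_le_one_of_one_le₀ h1.1
    linarith
  let H : X → Snf.RB := fun x =>
    BoundedContinuousFunction.ofNormedAddCommGroupDiscrete (H0 x) 3 (hH0b x)
  let Hi : X → Snf.RB := fun x =>
    BoundedContinuousFunction.ofNormedAddCommGroupDiscrete (fun k => (H0 x k)⁻¹) 3 (hH0i x)
  have hck : ∀ k, Continuous fun x => H0 x k := fun k =>
    continuous_const.add (continuous_const.mul (((Snf.continuous_bump _).comp hg.abs).mul (hu k)))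
  have hH : Continuous H := by
    refine Snf.continuous_bumps (fun x => |g x|) hg.abs (fun k => |g (t (φ k))|)
      (fun m n h => hgr m n h) (fun k => hck k) 1 (fun x k h => ?_)
    change 1 + 2 * (Snf.bump |g x| |g (t (φ k))| * uu k x) = 1
    rw [Snf.bump_far h, zero_mul, mul_zero, add_zero]
  have hHi : Continuous Hi := by
    refine Snf.continuous_bumps (fun x => |g x|) hg.abs (fun k => |g (t (φ k))|)
      (fun m n h => hgr m n h) (fun k => ?_) 1 (fun x k h => ?_)
    · exact (hck k).inv₀ fun x => by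
        have := (hH1 x k).1
        positivity
    · change (1 + 2 * (Snf.bump |g x| |g (t (φ k))| * uu k x))⁻¹ = 1
      rw [Snf.bump_far h, zero_mul, mul_zero, add_zero, inv_one]
  have hHHi : ∀ x, H x * Hi x = 1 := by
    intro x
    ext k
    change H0 x k * (H0 x k)⁻¹ = 1
    have := (hH1 x k).1
    exact mul_inv_cancel₀ (by positivity)
  have hL : Continuous (FT.lift fun x => Aff (H x) (Hi x) (hHHi x)) :=
    continuous_lift (continuous_Aff hH hHi hHHi)
  have hLv : Continuous fun v : FT X => ((FT.lift (fun x => Aff (H x) (Hi x) (hHHi x)) v :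
      (Matrix (Fin 2) (Fin 2) Snf.RB)ˣ) : Matrix (Fin 2) (Fin 2) Snf.RB) 0 1 := by
    have h1 := Units.continuous_val.comp hL
    exact Continuous.matrix_elem h1 0 1
  have h11 : ∀ x : X, (1 : ℝ) * 1 = 1 := fun _ => one_mul 1
  have hL1 : Continuous (FT.lift fun x : X => Aff (1 : ℝ) 1 (h11 x)) :=
    continuous_lift (continuous_Aff continuous_const continuous_const h11)
  have hL1v : Continuous fun v : FT X => ((FT.lift (fun x : X => Aff (1 : ℝ) 1 (h11 x)) v :
      (Matrix (Fin 2) (Fin 2) ℝ)ˣ) : Matrix (Fin 2) (Fin 2) ℝ) 0 1 := by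
    have h1 := Units.continuous_val.comp hL1
    exact Continuous.matrix_elem h1 0 1
  have hHH0 : ∀ k x, H0 x k * (H0 x k)⁻¹ = 1 := fun k x => by
    have := (hH1 x k).1
    exact mul_inv_cancel₀ (by positivity)
  -- coordinates
  have hcoord : ∀ (k : ℕ) (v : FT X), (((FT.lift (fun x => Aff (H x) (Hi x) (hHHi x)) v :
      (Matrix (Fin 2) (Fin 2) Snf.RB)ˣ) : Matrix (Fin 2) (Fin 2) Snf.RB) 0 1 : Snf.RB) k =
      ((FT.lift (fun x => Aff (H0 x k) (H0 x k)⁻¹ (hHH0 k x)) v :
      (Matrix (Fin 2) (Fin 2) ℝ)ˣ) : Matrix (Fin 2) (Fin 2) ℝ) 0 1 := by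
    intro k v
    let ev : Snf.RB →+* ℝ :=
      { toFun := fun f => f k
        map_one' := rfl
        map_mul' := fun f g => rfl
        map_zero' := rfl
        map_add' := fun f g => rfl }
    have h1 : (Units.map (ev.mapMatrix (m := Fin 2)).toMonoidHom).comp
        (FT.lift fun x => Aff (H x) (Hi x) (hHHi x)) =
        FT.lift (fun x => Aff (H0 x k) (H0 x k)⁻¹ (hHH0 k x)) := by
      apply FreeGroup.ext_hom
      intro x
      change Units.map _ (FT.lift _ (FT.of x)) = FT.lift _ (FT.of x)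
      rw [lift_of, lift_of]
      ext i j
      fin_cases i <;> fin_cases j <;> simp [Aff, ev] <;> rfl
    have h2 := congrArg (fun f : FT X →* (Matrix (Fin 2) (Fin 2) ℝ)ˣ =>
      ((f v : (Matrix (Fin 2) (Fin 2) ℝ)ˣ) : Matrix (Fin 2) (Fin 2) ℝ) 0 1) h1
    exact h2
  have hself : ∀ k, H0 (t (φ k)) k = 3 := by
    intro k
    change 1 + 2 * (Snf.bump |g (t (φ k))| |g (t (φ k))| * uu k (t (φ k))) = 3
    rw [Snf.bump_self, hu1]
    norm_num
  have hone : ∀ k x, x ∈ insert (y (φ k)) F → x ≠ t (φ k) → H0 x k = 1 := by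
    intro k x hx hne
    change 1 + 2 * (Snf.bump |g x| |g (t (φ k))| * uu k x) = 1
    rw [hu0 k x (Finset.mem_erase.2 ⟨hne, hx⟩), mul_zero, mul_zero, add_zero]
  have hzlarge : ∀ᶠ k in atTop, t (φ k) ∉ F := by
    have hinj : Function.Injective fun k => t (φ k) := by
      intro m n h
      rcases lt_trichotomy m n with h1 | h1 | h1
      · have := hgr m n h1
        simp only at h
        rw [h] at this
        linarith
      · exact h1
      · have := hgr n m h1
        simp only at h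
        rw [h] at this
        linarith
    have hfin : {k | t (φ k) ∈ F}.Finite :=
      Set.Finite.preimage hinj.injOn F.finite_toSet
    obtain ⟨n, hn⟩ := hfin.bddAbove
    filter_upwards [eventually_gt_atTop n] with k hk hkF
    have := hn (show k ∈ {k | t (φ k) ∈ F} from hkF)
    omega
  set Z : ℝ := ((FT.lift (fun x : X => Aff (1 : ℝ) 1 (h11 x)) z :
      (Matrix (Fin 2) (Fin 2) ℝ)ˣ) : Matrix (Fin 2) (Fin 2) ℝ) 0 1 with hZ
  have hlim1 : Tendsto (fun k => dist
      (((FT.lift (fun x => Aff (H x) (Hi x) (hHHi x)) (w (φ k)) :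
      (Matrix (Fin 2) (Fin 2) Snf.RB)ˣ) : Matrix (Fin 2) (Fin 2) Snf.RB) 0 1)
      (((FT.lift (fun x => Aff (H x) (Hi x) (hHHi x)) z :
      (Matrix (Fin 2) (Fin 2) Snf.RB)ˣ) : Matrix (Fin 2) (Fin 2) Snf.RB) 0 1)) atTop (𝓝 0) := by
    rw [← tendsto_iff_dist_tendsto_zero]
    exact ((hLv.tendsto z).comp (hw.comp hφ.tendsto_atTop))
  have hlim2 : Tendsto (fun k => dist (((FT.lift (fun x : X => Aff (1 : ℝ) 1 (h11 x)) (w (φ k)) :
      (Matrix (Fin 2) (Fin 2) ℝ)ˣ) : Matrix (Fin 2) (Fin 2) ℝ) 0 1) Z) atTop (𝓝 0) := by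
    rw [← tendsto_iff_dist_tendsto_zero]
    exact ((hL1v.tendsto z).comp (hw.comp hφ.tendsto_atTop))
  obtain ⟨k, hk1, hk2, hk3⟩ := (hzlarge.and ((hlim1.eventually (gt_mem_nhds (show (0 : ℝ) < 1 / 4 by
    norm_num))).and (hlim2.eventually (gt_mem_nhds (show (0 : ℝ) < 1 / 4 by norm_num))))).exists
  have h1 := BoundedContinuousFunction.dist_coe_le_dist
    (f := ((FT.lift (fun x => Aff (H x) (Hi x) (hHHi x)) (w (φ k)) :
      (Matrix (Fin 2) (Fin 2) Snf.RB)ˣ) : Matrix (Fin 2) (Fin 2) Snf.RB) 0 1)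
    (g := ((FT.lift (fun x => Aff (H x) (Hi x) (hHHi x)) z :
      (Matrix (Fin 2) (Fin 2) Snf.RB)ˣ) : Matrix (Fin 2) (Fin 2) Snf.RB) 0 1) k
  rw [hcoord, hcoord] at h1
  have h2 : FT.lift (fun x => Aff (H0 x k) (H0 x k)⁻¹ (hHH0 k x)) z =
      FT.lift (fun x : X => Aff (1 : ℝ) 1 (h11 x)) z := by
    apply lift_congr
    intro p hp
    have hpF : p.1 ∈ F := by
      simp only [F, List.mem_toFinset, List.mem_map]
      exact ⟨p, hp, rfl⟩
    have h3 : H0 p.1 k = 1 := hone k p.1 (Finset.mem_insert_of_mem hpF) (by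
      rintro h
      exact hk1 (h ▸ hpF))
    simp only [h3, inv_one]
  rw [h2, ← hZ, corner (fun x => H0 x k) (fun x => (H0 x k)⁻¹) (hHH0 k) (b (φ k)) (c (φ k))
    (hone k _ (Finset.mem_insert_self _ _) (hty _)) _ (hwj (φ k)), hself] at h1
  rw [corner (fun _ => (1 : ℝ)) (fun _ => 1) h11 (b (φ k)) (c (φ k)) rfl _ (hwj (φ k))] at hk3
  have h4 := lt_of_le_of_lt h1 hk2
  rw [Real.dist_eq, abs_lt] at h4 hk3
  cases hb' : b (φ k) <;> cases hc' : c (φ k) <;> simp only [hb', hc', cond_true, cond_false] at h4 hk3 <;>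
    linarith [h4.1, h4.2, hk3.1, hk3.2]

omit [T35Space X] in
/-- abelianization -/
noncomputable def ab : FT X →* Multiplicative (Snf.AT X) :=
  FT.lift fun x => Multiplicative.ofAdd (Snf.AT.of x)

omit [T35Space X] in
lemma continuous_ab : Continuous (ab : FT X → Multiplicative (Snf.AT X)) :=
  continuous_lift (Snf.continuous_of (X := X))

omit [T35Space X] in
lemma coef_ab (x : X) (L : List (X × Bool)) : (open Classical in
    Snf.coef (Multiplicative.toAdd (ab (mkL L))) x =
      (L.map fun p => if p.1 = x then cond p.2 (1 : ℤ) (-1) else 0).sum) := by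
  classical
  induction L with
  | nil =>
    rw [mkL_nil, map_one]
    rfl
  | cons p L ih =>
    rw [mkL_cons, map_mul, toAdd_mul, Snf.coef_add, ih, List.map_cons, List.sum_cons]
    congr 1
    obtain ⟨y, b⟩ := p
    by_cases hy : y = x
    · subst hy
      cases b
      · change Snf.coef (Multiplicative.toAdd (ab (FT.of y)⁻¹)) y = _
        rw [map_inv, toAdd_inv, Snf.coef_neg]
        have : Multiplicative.toAdd (ab (FT.of y)) = Snf.AT.of y := congrArg _ (lift_of _ y)
        rw [this, Snf.coef_of_self]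
        simp
      · change Snf.coef (Multiplicative.toAdd (ab (FT.of y))) y = _
        have : Multiplicative.toAdd (ab (FT.of y)) = Snf.AT.of y := congrArg _ (lift_of _ y)
        rw [this, Snf.coef_of_self]
        simp
    · cases b
      · change Snf.coef (Multiplicative.toAdd (ab (FT.of y)⁻¹)) x = _
        rw [map_inv, toAdd_inv, Snf.coef_neg]
        have : Multiplicative.toAdd (ab (FT.of y)) = Snf.AT.of y := congrArg _ (lift_of _ y)
        rw [this, Snf.coef_of_ne hy]
        simp [hy]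
      · change Snf.coef (Multiplicative.toAdd (ab (FT.of y))) x = _
        have : Multiplicative.toAdd (ab (FT.of y)) = Snf.AT.of y := congrArg _ (lift_of _ y)
        rw [this, Snf.coef_of_ne hy]
        simp [hy]

/-- reduced words of length at most three in which the exponents of a letter cancel -/
lemma exists_conj {X : Type*} [DecidableEq X] (t : X) (L : List (X × Bool))
    (hL : FreeGroup.IsReduced L) (hlen : L.length ≤ 3)
    (ht : ∃ b, (t, b) ∈ L) (hs : (L.map fun p => if p.1 = t then cond p.2 (1 : ℤ) (-1) else 0).sum = 0) :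
    ∃ (b c : Bool) (y : X), y ≠ t ∧ L = [(t, b), (y, c), (t, !b)] := by
  obtain ⟨b, hb⟩ := ht
  rcases L with _ | ⟨⟨a, α⟩, L⟩
  · simp at hb
  rcases L with _ | ⟨⟨a', α'⟩, L⟩
  · exfalso
    simp at hb hs
    cases α <;> simp_all
  rcases L with _ | ⟨⟨a'', α''⟩, L⟩
  · exfalso
    simp only [FreeGroup.IsReduced, List.isChain_cons_cons, List.isChain_singleton] at hL
    simp only [List.mem_cons, Prod.mk.injEq, List.not_mem_nil, or_false] at hb
    simp only [List.map_cons, List.map_nil, List.sum_cons, List.sum_nil] at hs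
    have hb' : a = t ∨ a' = t := by
      rcases hb with hb | hb
      · exact Or.inl hb.1.symm
      · exact Or.inr hb.1.symm
    clear hb
    by_cases h1 : a = t <;> by_cases h2 : a' = t <;> cases α <;> cases α' <;> simp_all
  have hL' : L = [] := by
    simp only [List.length_cons] at hlen
    exact List.eq_nil_of_length_eq_zero (by omega)
  subst hL'
  simp only [FreeGroup.IsReduced, List.isChain_cons_cons, List.isChain_singleton] at hL
  simp only [List.mem_cons, Prod.mk.injEq, List.not_mem_nil, or_false] at hb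
  simp only [List.map_cons, List.map_nil, List.sum_cons, List.sum_nil] at hs
  refine ⟨α, α', a', ?_⟩
  have hb' : a = t ∨ a' = t ∨ a'' = t := by
    rcases hb with hb | hb | hb
    · exact Or.inl hb.1.symm
    · exact Or.inr (Or.inl hb.1.symm)
    · exact Or.inr (Or.inr hb.1.symm)
  clear hb
  by_cases h1 : a = t <;> by_cases h2 : a' = t <;> by_cases h3 : a'' = t <;> cases α <;>
    cases α' <;> cases α'' <;> simp [h1, h2, h3] at hs hL hb' ⊢ <;> grind

/-- the letters of convergent sequences in `F₃(X)` are functionally bounded -/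
lemma fbdd_letters3 {w : ℕ → FT X} {z : FT X} (hw : Tendsto w atTop (𝓝 z))
    (h3 : ∀ j, w j ∈ Fn X 3) {t : ℕ → X} (ht : ∀ j, ∃ b, (t j, b) ∈ wd (w j)) : Snf.FBdd t := by
  classical
  apply fbdd_of_split fun j => Snf.coef (Multiplicative.toAdd (ab (w j))) (t j) ≠ 0
  · intro φ hφ hj
    have h1 : Tendsto (fun j => Multiplicative.toAdd (ab (w (φ j)))) atTop
        (𝓝 (Multiplicative.toAdd (ab z))) :=
      (continuous_ab.tendsto z).comp (hw.comp hφ.tendsto_atTop)
    exact Snf.fbdd_letters h1 fun j => Snf.mem_lett.2 (hj j)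
  · intro φ hφ hj
    have h1 : ∀ j, ∃ (b c : Bool) (y : X), y ≠ t (φ j) ∧
        wd (w (φ j)) = [(t (φ j), b), (y, c), (t (φ j), !b)] := by
      intro j
      apply exists_conj _ _ (wd_reduced _) (h3 (φ j)) (ht (φ j))
      have h2 := hj j
      rw [not_not, ← mkL_wd (w (φ j)), coef_ab] at h2
      exact h2
    choose b c y hy hwd using h1
    refine fbdd_conj (hw.comp hφ.tendsto_atTop) (b := b) (c := c) (y := y) hy fun j => ?_
    have h4 := congrArg mkL (hwd j)
    rw [mkL_wd] at h4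
    exact h4

end bdd

end Pool.Agent.V11281.Snf3
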