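import Pool.Agent.V11281.Snf.NonAb

/-!
# `snf`-countability of `F₃(X)`
-/

set_option autoImplicit false

open Set Topology Filter

namespace Pool.Agent.V11281.Snf3

open Pool.Agent.V11281.F4

universe u v

section small

/-- small products -/
lemma small_prod {G : Type u} [Group G] [TopologicalSpace G] [IsTopologicalGroup G]
    (N : ℕ) : ∀ O : Set G, IsOpen O → (1 : G) ∈ O → ∃ V : Set G, IsOpen V ∧ (1 : G) ∈ V ∧
      ∀ L : List G, L.length ≤ N → (∀ p ∈ L, p ∈ V) → L.prod ∈ O := by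
  induction N with
  | zero =>
    intro O hO h0
    refine ⟨O, hO, h0, fun L hL _ => ?_⟩
    have : L = [] := List.eq_nil_of_length_eq_zero (Nat.le_zero.1 hL)
    subst this
    simpa using h0
  | succ N ih =>
    intro O hO h0
    have h1 : {p : G × G | p.1 * p.2 ∈ O} ∈ 𝓝 ((1 : G), (1 : G)) :=
      (hO.preimage continuous_mul).mem_nhds (by simpa using h0)
    rw [nhds_prod_eq, mem_prod_iff] at h1
    obtain ⟨A, hA, B, hB, hAB⟩ := h1
    obtain ⟨A', hA', hA'o, h0A'⟩ := mem_nhds_iff.1 hA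
    obtain ⟨B', hB', hB'o, h0B'⟩ := mem_nhds_iff.1 hB
    obtain ⟨V, hV, h0V, hVL⟩ := ih B' hB'o h0B'
    refine ⟨V ∩ A', hV.inter hA'o, ⟨h0V, h0A'⟩, fun L hL hp => ?_⟩
    rcases L with _ | ⟨p, L⟩
    · simpa using h0
    · rw [List.prod_cons]
      have h2 : p ∈ A := hA' (hp p (by simp)).2
      have h3 : L.prod ∈ B := hB' (hVL L (by simpa using hL) fun q hq =>
        (hp q (List.mem_cons_of_mem _ hq)).1)
      exact hAB (show (p, L.prod) ∈ A ×ˢ B from ⟨h2, h3⟩)

/-- small products of conjugates -/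
lemma small_conj {G : Type u} [Group G] [TopologicalSpace G] [IsTopologicalGroup G]
    {S : Set G} (hS : S.Finite) (N : ℕ) (O : Set G) (hO : IsOpen O) (h1O : (1 : G) ∈ O) :
    ∃ V : Set G, IsOpen V ∧ (1 : G) ∈ V ∧
      ∀ L : List (G × G), L.length ≤ N → (∀ p ∈ L, p.1 ∈ S ∧ p.2 ∈ V) →
        (L.map fun p => p.1⁻¹ * p.2 * p.1).prod ∈ O := by
  obtain ⟨V, hV, h1V, hVL⟩ := small_prod N O hO h1O
  refine ⟨⋂ h ∈ S, {v | h⁻¹ * v * h ∈ V}, ?_, ?_, fun L hL hp => ?_⟩
  · exact hS.isOpen_biInter fun h _ => hV.preimage (by fun_prop)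
  · simp only [mem_iInter, mem_ofPred_eq]
    intro h _
    simpa using h1V
  · apply hVL
    · rwa [List.length_map]
    · intro q hq
      obtain ⟨p, hpL, rfl⟩ := List.mem_map.1 hq
      have h2 := (hp p hpL).2
      simp only [mem_iInter, mem_ofPred_eq] at h2
      exact h2 p.1 (hp p hpL).1

end small

section words

variable {X : Type u} [TopologicalSpace X]

/-- suffixes -/
def Suf (z : FT X) : Set (FT X) := {h | ∃ T, T <:+ wd z ∧ h = mkL T}

lemma Suf_finite (z : FT X) : (Suf z).Finite := by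
  have h1 : Suf z ⊆ mkL '' {T | T ∈ (wd z).tails} := by
    rintro h ⟨T, hT, rfl⟩
    exact ⟨T, (List.mem_tails T (wd z)).2 hT, rfl⟩
  exact ((List.finite_toSet _).image _).subset h1

lemma one_mem_Suf (z : FT X) : (1 : FT X) ∈ Suf z := ⟨[], List.nil_suffix, rfl⟩

lemma self_mem_Suf (z : FT X) : z ∈ Suf z := ⟨wd z, List.suffix_rfl, (mkL_wd z).symm⟩

lemma continuous_el' : Continuous (el : X × Bool → FT X) :=
  continuous_prod_of_discrete_right.2 continuous_el

lemma el_inv (p : X × Bool) : (el p)⁻¹ = el (p.1, !p.2) := by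
  rcases p with ⟨x, b⟩
  cases b
  · change ((FT.of x)⁻¹)⁻¹ = FT.of x
    rw [inv_inv]
  · rfl

lemma el_mul_mem (p q : X × Bool) : el p * el q ∈ Fn X 2 := by
  have h1 := len_mul (el p) (el q)
  have h2 := len_el p
  have h3 := len_el q
  change (wd (el p * el q)).length ≤ 2
  omega

lemma el_canc {p q : X × Bool} (h1 : p.1 = q.1) (h2 : p.2 ≠ q.2) : el p * el q = 1 := by
  have h3 : q = (p.1, !p.2) := by
    rcases p with ⟨x, b⟩
    rcases q with ⟨y, c⟩
    simp only at h1 h2 ⊢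
    subst h1
    cases b <;> cases c <;> simp_all
  rw [h3, ← el_inv, mul_inv_cancel]

/-- telescoping -/
lemma tele (Λ : List ((ℕ → X × Bool) × (X × Bool))) :
    (∀ p ∈ Λ, Tendsto p.1 atTop (𝓝 p.2)) →
    ∃ Ps : List (FT X × (ℕ → FT X)), Ps.length ≤ Λ.length ∧
      (∀ p ∈ Ps, (∃ T, T <:+ Λ.map Prod.snd ∧ p.1 = mkL T) ∧ (∀ j, p.2 j ∈ Fn X 2) ∧
        Tendsto p.2 atTop (𝓝 1)) ∧
      ∀ j, (mkL (Λ.map Prod.snd))⁻¹ * mkL (Λ.map fun p => p.1 j) =
        (Ps.map fun p => p.1⁻¹ * p.2 j * p.1).prod := by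
  induction Λ with
  | nil => exact fun _ => ⟨[], le_rfl, by simp, fun j => by simp [mkL_nil]⟩
  | cons a Λ ih =>
    intro h
    obtain ⟨Ps, hlen, hPs, hsum⟩ := ih fun p hp => h p (List.mem_cons_of_mem _ hp)
    refine ⟨(mkL (Λ.map Prod.snd), fun j => (el a.2)⁻¹ * el (a.1 j)) :: Ps, by simpa using hlen,
      ?_, fun j => ?_⟩
    · intro p hp
      rcases List.mem_cons.1 hp with rfl | hp
      · refine ⟨⟨_, List.suffix_cons _ _, rfl⟩, fun j => ?_, ?_⟩
        · change (el a.2)⁻¹ * el (a.1 j) ∈ Fn X 2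
          rw [el_inv]
          exact el_mul_mem _ _
        · have h1 := (continuous_el'.tendsto _).comp (h a (by simp))
          have h2 := h1.const_mul (el a.2)⁻¹
          rwa [inv_mul_cancel] at h2
      · obtain ⟨⟨T, hT, hpT⟩, h2, h3⟩ := hPs p hp
        exact ⟨⟨T, hT.trans (List.suffix_cons _ _), hpT⟩, h2, h3⟩
    · rw [List.map_cons, List.map_cons, mkL_cons, mkL_cons, List.map_cons, List.prod_cons,
        ← hsum j]
      group

variable [T35Space X]

lemma tendsto_mkL (Λ : List ((ℕ → X × Bool) × (X × Bool))) :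
    (∀ p ∈ Λ, Tendsto p.1 atTop (𝓝 p.2)) →
    Tendsto (fun j => mkL (Λ.map fun p => p.1 j)) atTop (𝓝 (mkL (Λ.map Prod.snd))) := by
  induction Λ with
  | nil => exact fun _ => tendsto_const_nhds
  | cons a Λ ih =>
    intro h
    have h1 := (continuous_el'.tendsto _).comp (h a (by simp))
    have h2 := h1.mul (ih fun p hp => h p (List.mem_cons_of_mem _ hp))
    simp only [List.map_cons, mkL_cons]
    exact h2

/-- the core decomposition -/
lemma core (Λ : List ((ℕ → X × Bool) × (X × Bool))) (h : ∀ p ∈ Λ, Tendsto p.1 atTop (𝓝 p.2))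
    (hlen : Λ.length ≤ 3) :
    ∃ Ps : List (FT X × (ℕ → FT X)), Ps.length ≤ 3 ∧
      (∀ p ∈ Ps, p.1 ∈ Suf (mkL (Λ.map Prod.snd)) ∧ (∀ j, p.2 j ∈ Fn X 2) ∧
        Tendsto p.2 atTop (𝓝 1)) ∧
      ∀ j, (mkL (Λ.map Prod.snd))⁻¹ * mkL (Λ.map fun p => p.1 j) =
        (Ps.map fun p => p.1⁻¹ * p.2 j * p.1).prod := by
  classical
  by_cases hred : FreeGroup.IsReduced (Λ.map Prod.snd)
  · obtain ⟨Ps, h1, h2, h3⟩ := tele Λ h
    refine ⟨Ps, h1.trans hlen, fun p hp => ?_, h3⟩
    obtain ⟨⟨T, hT, hpT⟩, h4, h5⟩ := h2 p hp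
    refine ⟨⟨T, ?_, hpT⟩, h4, h5⟩
    have h6 : wd (mkL (Λ.map Prod.snd)) = Λ.map Prod.snd := by
      change FreeGroup.toWord (FreeGroup.mk _) = _
      rw [FreeGroup.toWord_mk]
      exact hred.reduce_eq
    rwa [h6]
  · rcases Λ with _ | ⟨a, Λ⟩
    · exact absurd (by simp [FreeGroup.IsReduced]) hred
    rcases Λ with _ | ⟨b, Λ⟩
    · exact absurd (by simp [FreeGroup.IsReduced]) hred
    have hta := (continuous_el'.tendsto _).comp (h a (by simp))
    have htb := (continuous_el'.tendsto _).comp (h b (by simp))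
    rcases Λ with _ | ⟨c, Λ⟩
    · simp only [List.map_cons, List.map_nil, FreeGroup.IsReduced, List.isChain_cons_cons,
        List.isChain_singleton, and_true, not_forall] at hred
      obtain ⟨h1, h2⟩ := hred
      have h3 := el_canc h1 h2
      have hz : mkL ([a, b].map Prod.snd) = 1 := by
        simp only [List.map_cons, List.map_nil, mkL_cons, mkL_nil, mul_one, h3]
      refine ⟨[(1, fun j => el (a.1 j) * el (b.1 j))], by simp, ?_, fun j => ?_⟩
      · intro p hp
        rw [List.mem_singleton] at hp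
        subst hp
        refine ⟨one_mem_Suf _, fun j => el_mul_mem _ _, ?_⟩
        rw [← h3]
        exact hta.mul htb
      · rw [hz]
        simp [mkL_cons, mkL_nil]
    · have hΛ : Λ = [] := by
        simp only [List.length_cons] at hlen
        exact List.eq_nil_of_length_eq_zero (by omega)
      subst hΛ
      have htc := (continuous_el'.tendsto _).comp (h c (by simp))
      by_cases hab : a.2.1 = b.2.1 ∧ a.2.2 ≠ b.2.2
      · have h3 := el_canc hab.1 hab.2
        have hz : mkL ([a, b, c].map Prod.snd) = el c.2 := by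
          simp only [List.map_cons, List.map_nil, mkL_cons, mkL_nil, mul_one]
          rw [← mul_assoc, h3, one_mul]
        rw [hz]
        refine ⟨[(el c.2, fun j => el (a.1 j) * el (b.1 j)),
          (1, fun j => (el c.2)⁻¹ * el (c.1 j))], by simp, ?_, fun j => ?_⟩
        · intro p hp
          simp only [List.mem_cons, List.not_mem_nil, or_false] at hp
          rcases hp with rfl | rfl
          · refine ⟨self_mem_Suf _, fun j => el_mul_mem _ _, ?_⟩
            rw [← h3]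
            exact hta.mul htb
          · refine ⟨one_mem_Suf _, fun j => ?_, ?_⟩
            · change (el c.2)⁻¹ * el (c.1 j) ∈ Fn X 2
              rw [el_inv]
              exact el_mul_mem _ _
            · have h2 := htc.const_mul (el c.2)⁻¹
              rwa [inv_mul_cancel] at h2
        · simp only [List.map_cons, List.map_nil, mkL_cons, mkL_nil, mul_one, List.prod_cons,
            List.prod_nil]
          group
      · have hbc : b.2.1 = c.2.1 ∧ b.2.2 ≠ c.2.2 := by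
          by_contra hcon
          apply hred
          simp only [List.map_cons, List.map_nil, FreeGroup.IsReduced, List.isChain_cons_cons,
            List.isChain_singleton, and_true]
          constructor
          · intro h1
            by_contra h2
            exact hab ⟨h1, h2⟩
          · intro h1
            by_contra h2
            exact hcon ⟨h1, h2⟩
        have h3 := el_canc hbc.1 hbc.2
        have hz : mkL ([a, b, c].map Prod.snd) = el a.2 := by
          simp only [List.map_cons, List.map_nil, mkL_cons, mkL_nil, mul_one]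
          rw [h3, mul_one]
        rw [hz]
        refine ⟨[(1, fun j => (el a.2)⁻¹ * el (a.1 j)),
          (1, fun j => el (b.1 j) * el (c.1 j))], by simp, ?_, fun j => ?_⟩
        · intro p hp
          simp only [List.mem_cons, List.not_mem_nil, or_false] at hp
          rcases hp with rfl | rfl
          · refine ⟨one_mem_Suf _, fun j => ?_, ?_⟩
            · change (el a.2)⁻¹ * el (a.1 j) ∈ Fn X 2
              rw [el_inv]
              exact el_mul_mem _ _
            · have h2 := hta.const_mul (el a.2)⁻¹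
              rwa [inv_mul_cancel] at h2
          · refine ⟨one_mem_Suf _, fun j => el_mul_mem _ _, ?_⟩
            rw [← h3]
            exact htb.mul htc
        · simp only [List.map_cons, List.map_nil, mkL_cons, mkL_nil, mul_one, List.prod_cons,
            List.prod_nil]
          group

omit [T35Space X] in
lemma extractB (hB : Snf.SeqB X) {ι : Type*} (s : Finset ι) (q : ι → ℕ → X × Bool)
    (hq : ∀ i, Snf.FBdd fun j => (q i j).1) :
    ∃ φ : ℕ → ℕ, StrictMono φ ∧ ∀ i ∈ s, ∃ D, Tendsto (q i ∘ φ) atTop (𝓝 D) := by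
  classical
  induction s using Finset.induction_on with
  | empty => exact ⟨id, strictMono_id, by simp⟩
  | insert a s ha ih =>
    obtain ⟨φ, hφ, hs⟩ := ih
    obtain ⟨ψ, c, hψ, hc⟩ := hB _ ((hq a).comp φ)
    obtain ⟨k, -, χ, hχ, hk⟩ := (isCompact_univ (X := Bool)).tendsto_subseq
      (x := fun j => (q a (φ (ψ j))).2) fun _ => mem_univ _
    refine ⟨φ ∘ ψ ∘ χ, hφ.comp (hψ.comp hχ), fun i hi => ?_⟩
    rcases Finset.mem_insert.1 hi with rfl | hi
    · exact ⟨(c, k), (hc.comp hχ.tendsto_atTop).prodMk_nhds hk⟩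
    · obtain ⟨D, hD⟩ := hs i hi
      exact ⟨D, hD.comp (hψ.comp hχ).tendsto_atTop⟩

lemma ofFn_get_cast {α : Type*} (l : List α) (m : ℕ) (h : l.length = m) :
    List.ofFn (fun i : Fin m => l.get (i.cast h.symm)) = l := by
  subst h
  simp

/-- **Decomposition.** -/
theorem dec3 (hB : Snf.SeqB X) {w : ℕ → FT X} {z : FT X} (hw3 : ∀ j, w j ∈ Fn X 3)
    (hw : Tendsto w atTop (𝓝 z)) :
    ∃ φ : ℕ → ℕ, StrictMono φ ∧ ∃ Ps : List (FT X × (ℕ → FT X)), Ps.length ≤ 3 ∧
      (∀ p ∈ Ps, p.1 ∈ Suf z ∧ (∀ j, p.2 j ∈ Fn X 2) ∧ Tendsto p.2 atTop (𝓝 1)) ∧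
      ∀ j, z⁻¹ * w (φ j) = (Ps.map fun p => p.1⁻¹ * p.2 j * p.1).prod := by
  classical
  obtain ⟨m, φ1, hφ1, hm⟩ : ∃ (m : ℕ) (φ : ℕ → ℕ), StrictMono φ ∧
      ∀ j, (wd (w (φ j))).length = m := by
    obtain ⟨m, hm⟩ := Finite.exists_infinite_fiber
      (fun j => (⟨(wd (w j)).length, Nat.lt_succ_of_le (hw3 j)⟩ : Fin 4))
    rw [Set.infinite_coe_iff] at hm
    refine ⟨m, Nat.nth (· ∈ (fun j => (⟨(wd (w j)).length, Nat.lt_succ_of_le (hw3 j)⟩ : Fin 4)) ⁻¹'
      {m}), Nat.nth_strictMono hm, fun j => ?_⟩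
    have h1 := Nat.nth_mem_of_infinite hm j
    exact congrArg Fin.val h1
  let q : Fin m → ℕ → X × Bool := fun i j => (wd (w (φ1 j))).get (i.cast (hm j).symm)
  have hF : ∀ i, Snf.FBdd fun j => (q i j).1 := fun i =>
    fbdd_letters3 (hw.comp hφ1.tendsto_atTop) (fun j => hw3 _) fun j =>
      ⟨(q i j).2, List.get_mem _ _⟩
  obtain ⟨φ2, hφ2, hD⟩ := extractB hB Finset.univ q hF
  choose D hD using fun i => hD i (Finset.mem_univ i)
  let Λ : List ((ℕ → X × Bool) × (X × Bool)) := List.ofFn fun i : Fin m => (q i ∘ φ2, D i)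
  have hΛ : ∀ p ∈ Λ, Tendsto p.1 atTop (𝓝 p.2) := by
    intro p hp
    obtain ⟨i, rfl⟩ := List.mem_ofFn.1 hp
    exact hD i
  have hm3 : m ≤ 3 := by
    rw [← hm 0]
    exact hw3 _
  have hΛlen : Λ.length ≤ 3 := by
    rw [List.length_ofFn]
    exact hm3
  have hΛj : ∀ j, mkL (Λ.map fun p => p.1 j) = w (φ1 (φ2 j)) := by
    intro j
    have h1 : (Λ.map fun p => p.1 j) = List.ofFn fun i : Fin m => q i (φ2 j) := by
      rw [List.map_ofFn]
      rfl
    rw [h1, ofFn_get_cast _ m (hm (φ2 j)), mkL_wd]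
  have hz : mkL (Λ.map Prod.snd) = z := by
    have h1 := tendsto_mkL Λ hΛ
    simp only [hΛj] at h1
    exact tendsto_nhds_unique h1 (hw.comp (hφ1.comp hφ2).tendsto_atTop)
  obtain ⟨Ps, h1, h2, h3⟩ := core Λ hΛ hΛlen
  rw [hz] at h2
  simp only [hz, hΛj] at h3
  exact ⟨φ1 ∘ φ2, hφ1.comp hφ2, Ps, h1, h2, h3⟩

lemma one_mem_Fn (n : ℕ) : (1 : FT X) ∈ Fn X n := by
  change (wd (1 : FT X)).length ≤ n
  rw [wd_eq_nil.2 rfl]
  simp

/-- `snf`-countability passes from `F₂(X)` to `F₃(X)` -/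
theorem snf_F3 (hB : Snf.SeqB X) (h : Snf.SnfCountable (Fn X 2)) : Snf.SnfCountable (Fn X 3) := by
  intro z
  obtain ⟨PP, hPc, hPs0, hPd, hPU⟩ := h ⟨1, one_mem_Fn 2⟩
  let Q : Set (Fn X 2) → Set (Fn X 3) := fun P =>
    {w | ∃ L : List (FT X × FT X), L.length ≤ 3 ∧
      (∀ p ∈ L, p.1 ∈ Suf (z : FT X) ∧ p.2 ∈ Subtype.val '' P) ∧
      (z : FT X)⁻¹ * w = (L.map fun p => p.1⁻¹ * p.2 * p.1).prod}
  refine ⟨Q '' PP, hPc.image _, ?_, ?_, ?_⟩
  · rintro _ ⟨P, hP, rfl⟩ s hs
    by_contra hcon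
    rw [not_eventually] at hcon
    obtain ⟨ψ, hψ, hψs⟩ := extraction_of_frequently_atTop hcon
    have hv0 : Tendsto (fun j => (s (ψ j) : FT X)) atTop (𝓝 (z : FT X)) :=
      (continuous_subtype_val.tendsto z).comp (hs.comp hψ.tendsto_atTop)
    obtain ⟨φ, hφ, Ps, hlen, hPs, hsum⟩ := dec3 hB (fun j => (s (ψ j)).2) hv0
    have h1 : ∀ p ∈ Ps, ∀ᶠ j in atTop, p.2 j ∈ Subtype.val '' P := by
      intro p hp
      obtain ⟨-, hp2, hp0⟩ := hPs p hp
      have h2 : Tendsto (fun j => (⟨p.2 j, hp2 j⟩ : Fn X 2)) atTop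
          (𝓝 ⟨1, one_mem_Fn 2⟩) := by
        rw [Topology.IsInducing.subtypeVal.tendsto_nhds_iff]
        exact hp0
      filter_upwards [hPs0 P hP _ h2] with j hj
      exact ⟨_, hj, rfl⟩
    have h2 : ∀ᶠ j in atTop, ∀ p ∈ Ps, p.2 j ∈ Subtype.val '' P := by
      have h3 : ∀ L : List (FT X × (ℕ → FT X)),
          (∀ p ∈ L, ∀ᶠ j in atTop, p.2 j ∈ Subtype.val '' P) →
          ∀ᶠ j in atTop, ∀ p ∈ L, p.2 j ∈ Subtype.val '' P := by
        intro L
        induction L with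
        | nil => intro _; simp
        | cons a L ih =>
          intro hL
          filter_upwards [hL a (by simp), ih fun p hp => hL p (List.mem_cons_of_mem _ hp)]
            with j hj1 hj2 p hp
          rcases List.mem_cons.1 hp with rfl | hp
          · exact hj1
          · exact hj2 p hp
      exact h3 Ps h1
    obtain ⟨j, hj⟩ := h2.exists
    apply hψs (φ j)
    refine ⟨Ps.map fun p => (p.1, p.2 j), by simpa using hlen, ?_, ?_⟩
    · intro p hp
      obtain ⟨p', hp', rfl⟩ := List.mem_map.1 hp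
      exact ⟨(hPs p' hp').1, hj p' hp'⟩
    · rw [List.map_map]
      exact hsum j
  · rintro _ ⟨P, hP, rfl⟩ _ ⟨P', hP', rfl⟩
    obtain ⟨W, hW, hWs⟩ := hPd P hP P' hP'
    refine ⟨Q W, ⟨W, hW, rfl⟩, ?_⟩
    rintro w ⟨L, h1, h2, h3⟩
    refine ⟨⟨L, h1, fun p hp => ?_, h3⟩, ⟨L, h1, fun p hp => ?_, h3⟩⟩
    · obtain ⟨h4, y, hy, h5⟩ := h2 p hp
      exact ⟨h4, y, (hWs hy).1, h5⟩
    · obtain ⟨h4, y, hy, h5⟩ := h2 p hp
      exact ⟨h4, y, (hWs hy).2, h5⟩
  · intro U hU hzU
    obtain ⟨O, hO, rfl⟩ := isOpen_induced_iff.1 hU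
    have hO' : IsOpen ((fun v : FT X => (z : FT X) * v) ⁻¹' O) :=
      hO.preimage (continuous_const.mul continuous_id)
    obtain ⟨V, hV, h0V, hVL⟩ := small_conj (Suf_finite (z : FT X)) 3 _ hO' (by
      change (z : FT X) * 1 ∈ O
      rw [mul_one]
      exact hzU)
    obtain ⟨P, hP, h0P, hPV⟩ := hPU (Subtype.val ⁻¹' V) (hV.preimage continuous_subtype_val) h0V
    refine ⟨Q P, ⟨P, hP, rfl⟩, ⟨[], Nat.zero_le _, by simp, by simp⟩, ?_⟩
    rintro w ⟨L, h1, h2, h3⟩
    have h4 : (L.map fun p => p.1⁻¹ * p.2 * p.1).prod ∈ (fun v : FT X => (z : FT X) * v) ⁻¹' O :=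
      hVL L h1 fun p hp => by
        obtain ⟨h5, y, hy, h6⟩ := h2 p hp
        exact ⟨h5, h6 ▸ hPV hy⟩
    rw [← h3] at h4
    have h5 : (z : FT X) * ((z : FT X)⁻¹ * (w : FT X)) ∈ O := h4
    rwa [mul_inv_cancel_left] at h5

end words

end Pool.Agent.V11281.Snf3
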