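import Mathlib

/-!
# Functionally bounded sequences have convergent subsequences

We show this for (completely regular) `k`-spaces with a regular `G_δ`-diagonal, and for normal
sequential spaces.
-/

set_option autoImplicit false

open Set Topology Filter

namespace Pool.Agent.V11281.Snf

universe u

/-- `k`-spaces -/
def IsKSpace (X : Type u) [TopologicalSpace X] : Prop :=
  ∀ F : Set X, (∀ K : Set X, IsCompact K → IsClosed (Subtype.val ⁻¹' F : Set K)) → IsClosed F

/-- regular `G_δ`-diagonal -/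
def RegularGdeltaDiagonal (X : Type u) [TopologicalSpace X] : Prop :=
  ∃ U : ℕ → Set (X × X), (∀ m, IsOpen (U m)) ∧ (∀ m x, (x, x) ∈ U m) ∧
    ∀ x y, (∀ m, (x, y) ∈ closure (U m)) → x = y

/-- sequences on which continuous real functions are bounded -/
def FBdd {X : Type u} [TopologicalSpace X] (t : ℕ → X) : Prop :=
  ∀ g : X → ℝ, Continuous g → ∃ C : ℝ, ∀ j, |g (t j)| ≤ C

lemma FBdd.comp {X : Type u} [TopologicalSpace X] {t : ℕ → X} (h : FBdd t) (φ : ℕ → ℕ) :
    FBdd (t ∘ φ) := fun g hg => by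
  obtain ⟨C, hC⟩ := h g hg
  exact ⟨C, fun j => hC _⟩

/-- functionally bounded sequences have convergent subsequences -/
def SeqB (X : Type u) [TopologicalSpace X] : Prop :=
  ∀ t : ℕ → X, FBdd t → ∃ (φ : ℕ → ℕ) (c : X), StrictMono φ ∧ Tendsto (t ∘ φ) atTop (𝓝 c)

section gdelta

variable {X : Type u} [TopologicalSpace X]

/-- sequences in compact sets have convergent subsequences -/
lemma compact_subseq [T2Space X] (hD : RegularGdeltaDiagonal X) {K : Set X} (hK : IsCompact K)
    {y : ℕ → X} (hy : ∀ k, y k ∈ K) :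
    ∃ (φ : ℕ → ℕ) (c : X), StrictMono φ ∧ Tendsto (y ∘ φ) atTop (𝓝 c) := by
  obtain ⟨U, hUo, hUd, hU⟩ := hD
  obtain ⟨q, hqK, hq⟩ := hK.exists_mapClusterPt (f := atTop) (u := y)
    (by
      rw [le_principal_iff]
      exact Filter.Eventually.of_forall (f := atTop) (p := fun k => y k ∈ K) hy)
  set W : ℕ → Set X := fun m => {x | ∀ i ≤ m, (q, x) ∈ U i} with hW
  have hWo : ∀ m, W m ∈ 𝓝 q := by
    intro m
    have h1 : ∀ i, {x : X | (q, x) ∈ U i} ∈ 𝓝 q := fun i =>
      ((hUo i).preimage (by fun_prop : Continuous fun x : X => (q, x))).mem_nhds (hUd i q)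
    have h2 : W m = ⋂ i ∈ Finset.range (m + 1), {x : X | (q, x) ∈ U i} := by
      ext x; simp [hW]
    rw [h2]
    exact (Filter.biInter_finset_mem _).2 fun i _ => h1 i
  have hfreq : ∀ m N : ℕ, ∃ k ≥ N, y k ∈ W m := by
    intro m N
    have h1 := (mapClusterPt_iff_frequently.1 hq) (W m) (hWo m)
    obtain ⟨k, hk1, hk2⟩ := (frequently_atTop.1 h1) N
    exact ⟨k, hk1, hk2⟩
  choose k hk1 hk2 using hfreq
  let φ : ℕ → ℕ := fun n => Nat.rec (k 0 0) (fun n r => k (n + 1) (r + 1)) n
  have hφs : ∀ n, φ (n + 1) = k (n + 1) (φ n + 1) := fun n => rfl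
  have hφ : StrictMono φ := strictMono_nat_of_lt_succ fun n => by
    rw [hφs]; exact Nat.lt_of_succ_le (hk1 _ _)
  have hφW : ∀ n, y (φ n) ∈ W n := by
    intro n
    cases n with
    | zero => exact hk2 0 0
    | succ n => rw [hφs]; exact hk2 _ _
  refine ⟨φ, q, hφ, ?_⟩
  rw [tendsto_iff_ultrafilter]
  intro 𝒰 h𝒰
  obtain ⟨q', hq'K, hq'⟩ := hK.ultrafilter_le_nhds (𝒰.map (y ∘ φ)) (by
    rw [le_principal_iff]
    exact Filter.Eventually.of_forall (f := (𝒰 : Filter ℕ)) (p := fun k => y (φ k) ∈ K)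
      fun n => hy _)
  have h1 : q = q' := by
    apply hU
    intro m
    have h2 : Tendsto (fun n => (q, y (φ n))) 𝒰 (𝓝 (q, q')) :=
      tendsto_const_nhds.prodMk_nhds hq'
    refine mem_closure_of_tendsto h2 ?_
    have h3 : ∀ᶠ n in (𝒰 : Filter ℕ), m ≤ n := h𝒰 (eventually_ge_atTop m)
    filter_upwards [h3] with n hn
    exact hφW n m hn
  rw [h1]
  exact hq'

/-- Lemma A -/
lemma exists_near [T35Space X] (hk : IsKSpace X) (hD : RegularGdeltaDiagonal X) {x : ℕ → X}
    (hx : FBdd x) {O : ℕ → Set X} (hO : ∀ n, IsOpen (O n)) (hxO : ∀ n, x n ∈ O n) :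
    ∃ (φ : ℕ → ℕ) (y : ℕ → X) (p : X), StrictMono φ ∧ (∀ n, y n ∈ O (φ n)) ∧
      Tendsto y atTop (𝓝 p) := by
  have h1 : ∀ n, ∃ V : Set X, IsOpen V ∧ x n ∈ V ∧ closure V ⊆ O n := by
    intro n
    obtain ⟨V, hV, hVc, hVO⟩ := exists_mem_nhds_isClosed_subset ((hO n).mem_nhds (hxO n))
    refine ⟨interior V, isOpen_interior, mem_interior_iff_mem_nhds.2 hV, ?_⟩
    exact (closure_minimal interior_subset hVc).trans hVO
  choose V hVo hxV hVO using h1
  have hnlf : ¬ LocallyFinite V := by
    intro hlf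
    have h2 : ∀ n, ∃ f : X → ℝ, Continuous f ∧ f (x n) = 1 ∧ (∀ y, 0 ≤ f y) ∧
        ∀ y, y ∉ V n → f y = 0 := by
      intro n
      obtain ⟨f, hf, hf0, hf1⟩ := CompletelyRegularSpace.completely_regular (x n) (V n)ᶜ
        (hVo n).isClosed_compl (fun h => h (hxV n))
      refine ⟨fun y => 1 - (f y : ℝ), by fun_prop, by simp [hf0], fun y => ?_, fun y hy => ?_⟩
      · have := (f y).2.2
        linarith
      · have := hf1 hy
        simp [this]
    choose f hfc hf1 hf0 hfV using h2
    let g : X → ℝ := fun y => ∑ᶠ n : ℕ, (n : ℝ) * f n y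
    have hsupp : LocallyFinite fun n : ℕ => Function.support fun y => (n : ℝ) * f n y := by
      refine hlf.subset fun n y hy => ?_
      by_contra hyV
      apply hy
      simp only
      rw [hfV n y hyV, mul_zero]
    have hg : Continuous g := continuous_finsum (fun n => (hfc n).const_mul _ |> fun h => h) hsupp
    obtain ⟨C, hC⟩ := hx g hg
    obtain ⟨n, hn⟩ := exists_nat_gt C
    have h3 : (n : ℝ) ≤ g (x n) := by
      have hfin : (Function.support fun m : ℕ => (m : ℝ) * f m (x n)).Finite := by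
        refine (hlf.point_finite (x n)).subset fun m hm => ?_
        by_contra hmV
        apply hm
        simp only
        rw [hfV m _ hmV, mul_zero]
      have h4 := single_le_finsum (f := fun m : ℕ => (m : ℝ) * f m (x n)) n hfin
        fun m => mul_nonneg (Nat.cast_nonneg m) (hf0 m _)
      simpa [hf1] using h4
    have h4 := (le_abs_self _).trans (hC n)
    linarith
  -- a point where the family accumulates
  obtain ⟨p, hp⟩ : ∃ p, ∀ N ∈ 𝓝 p, {n | (V n ∩ N).Nonempty}.Infinite := by
    by_contra hcon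
    push Not at hcon
    apply hnlf
    intro p
    obtain ⟨N, hN, hfin⟩ := hcon p
    exact ⟨N, hN, hfin⟩
  by_cases hcase : {n | p ∈ closure (V n)}.Infinite
  · obtain ⟨φ, hφ, hφp⟩ : ∃ φ : ℕ → ℕ, StrictMono φ ∧ ∀ n, p ∈ closure (V (φ n)) :=
      ⟨Nat.nth fun n => p ∈ closure (V n), Nat.nth_strictMono hcase,
        fun n => Nat.nth_mem_of_infinite hcase n⟩
    exact ⟨φ, fun _ => p, p, hφ, fun n => hVO _ (hφp n), tendsto_const_nhds⟩
  · rw [not_infinite] at hcase
    obtain ⟨N0, hN0⟩ : ∃ N0, ∀ n ≥ N0, p ∉ closure (V n) := by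
      obtain ⟨b, hb⟩ := hcase.bddAbove
      refine ⟨b + 1, fun n hn hpn => ?_⟩
      have := hb hpn
      omega
    set F : Set X := ⋃ n ∈ Ici N0, closure (V n) with hF
    have hFn : ¬ IsClosed F := by
      intro hcl
      have hpF : p ∉ F := by
        simp only [hF, mem_iUnion, not_exists]
        exact fun n hn => hN0 n hn
      have h2 := hp Fᶜ (hcl.isOpen_compl.mem_nhds hpF)
      apply h2
      refine (finite_lt_nat N0).subset fun n hn => ?_
      by_contra hlt
      obtain ⟨y, hyV, hyF⟩ := hn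
      apply hyF
      simp only [hF, mem_iUnion]
      exact ⟨n, show N0 ≤ n from not_lt.1 hlt, subset_closure hyV⟩
    have h2 : ∃ K : Set X, IsCompact K ∧ ¬ IsClosed (Subtype.val ⁻¹' F : Set K) := by
      by_contra hcon
      push Not at hcon
      exact hFn (hk F hcon)
    obtain ⟨K, hK, hKF⟩ := h2
    have h3 : ¬ IsClosed (K ∩ F) := by
      intro h
      exact hKF (by
        have := h.preimage (continuous_subtype_val (p := fun x => x ∈ K))
        have h4 : (Subtype.val ⁻¹' (K ∩ F) : Set K) = Subtype.val ⁻¹' F := by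
          ext z; simp
        rwa [h4] at this)
    -- infinitely many members meet `K`
    have h4 : ∀ N : ℕ, ∃ n ≥ N, (K ∩ closure (V n)).Nonempty := by
      intro N
      by_contra hcon
      push Not at hcon
      apply h3
      have h5 : K ∩ F = ⋃ n ∈ {n : ℕ | N0 ≤ n ∧ n < N}, K ∩ closure (V n) := by
        ext z
        simp only [hF, mem_inter_iff, mem_iUnion, mem_Ici, exists_prop, mem_ofPred_eq]
        constructor
        · rintro ⟨hzK, n, hn, hz⟩
          refine ⟨n, ⟨hn, ?_⟩, hzK, hz⟩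
          by_contra hlt
          have := hcon n (not_lt.1 hlt)
          exact (this ▸ (⟨hzK, hz⟩ : z ∈ K ∩ closure (V n)) : z ∈ (∅ : Set X))
        · rintro ⟨n, ⟨hn, -⟩, hzK, hz⟩
          exact ⟨hzK, n, hn, hz⟩
      rw [h5]
      have hfin : {n : ℕ | N0 ≤ n ∧ n < N}.Finite := (finite_lt_nat N).subset fun n hn => hn.2
      exact hfin.isClosed_biUnion fun n _ => hK.isClosed.inter isClosed_closure
    choose ν hν1 hν2 using h4
    let ψ : ℕ → ℕ := fun n => Nat.rec (ν 0) (fun n r => ν (r + 1)) n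
    have hψs : ∀ n, ψ (n + 1) = ν (ψ n + 1) := fun n => rfl
    have hψ : StrictMono ψ := strictMono_nat_of_lt_succ fun n => by
      rw [hψs]; exact Nat.lt_of_succ_le (hν1 _)
    have hψV : ∀ n, (K ∩ closure (V (ψ n))).Nonempty := by
      intro n
      cases n with
      | zero => exact hν2 0
      | succ n => rw [hψs]; exact hν2 _
    choose y hyK hyV using hψV
    obtain ⟨χ, c, hχ, hc⟩ := compact_subseq hD hK hyK
    exact ⟨ψ ∘ χ, y ∘ χ, c, hψ.comp hχ, fun n => hVO _ (hyV _), hc⟩

/-- functionally bounded sequences in `k`-spaces with a regular `G_δ`-diagonal -/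
theorem seqB_of_kSpace [T35Space X] (hk : IsKSpace X) (hD : RegularGdeltaDiagonal X) :
    SeqB X := by
  intro x hx
  have hD' := hD
  obtain ⟨U, hUo, hUd, hU⟩ := hD
  have h1 : ∀ n, ∃ O : Set X, IsOpen O ∧ x n ∈ O ∧ ∀ i ≤ n, O ×ˢ O ⊆ U i := by
    intro n
    have h2 : ∀ i, ∃ O : Set X, IsOpen O ∧ x n ∈ O ∧ O ×ˢ O ⊆ U i := by
      intro i
      obtain ⟨A, B, hA, hB, hxA, hxB, hAB⟩ := isOpen_prod_iff.1 (hUo i) (x n) (x n) (hUd i _)
      refine ⟨A ∩ B, hA.inter hB, ⟨hxA, hxB⟩, fun z hz => hAB ⟨hz.1.1, hz.2.2⟩⟩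
    choose O hOo hxO hOU using h2
    refine ⟨⋂ i ∈ Finset.range (n + 1), O i, isOpen_biInter_finset fun i _ => hOo i, ?_, ?_⟩
    · simp only [mem_iInter]
      exact fun i _ => hxO i
    · intro i hi z hz
      apply hOU i
      simp only [mem_prod, mem_iInter, Finset.mem_range] at hz
      exact ⟨hz.1 i (by omega), hz.2 i (by omega)⟩
  choose O hOo hxO hOU using h1
  obtain ⟨φ, y, p, hφ, hy, hyp⟩ := exists_near hk hD' hx hOo hxO
  refine ⟨φ, p, hφ, ?_⟩
  have key : ∀ W : Set X, IsOpen W → p ∈ W → ∀ᶠ n in atTop, x (φ n) ∈ closure W := by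
    intro W hW hpW
    by_contra hcon
    rw [not_eventually] at hcon
    obtain ⟨ψ, hψ, hψx⟩ := extraction_of_frequently_atTop hcon
    obtain ⟨χ, y', p', hχ, hy', hy'p⟩ := exists_near hk hD' (hx.comp (φ ∘ ψ))
      (O := fun n => O (φ (ψ n)) \ closure W)
      (fun n => (hOo _).sdiff isClosed_closure) (fun n => ⟨hxO _, hψx n⟩)
    have hp' : p' ∉ W := by
      intro hp'W
      obtain ⟨n, hn⟩ := (hy'p.eventually (hW.mem_nhds hp'W)).exists
      exact (hy' n).2 (subset_closure hn)
    apply hp'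
    have hpp : p = p' := by
      apply hU
      intro m
      have h2 : Tendsto (fun n => (y (ψ (χ n)), y' n)) atTop (𝓝 (p, p')) :=
        (hyp.comp ((hψ.comp hχ).tendsto_atTop)).prodMk_nhds hy'p
      refine mem_closure_of_tendsto h2 ?_
      filter_upwards [eventually_ge_atTop m] with n hn
      have h3 : m ≤ φ (ψ (χ n)) :=
        hn.trans ((hφ.comp (hψ.comp hχ)).id_le n)
      exact hOU _ m h3 ⟨hy _, (hy' n).1⟩
    rwa [← hpp]
  rw [tendsto_def]
  intro S hS
  obtain ⟨T, hT, hTc, hTS⟩ := exists_mem_nhds_isClosed_subset hS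
  have h2 := key (interior T) isOpen_interior (mem_interior_iff_mem_nhds.2 hT)
  filter_upwards [h2] with n hn
  exact hTS (closure_minimal interior_subset hTc hn)

end gdelta

section normal

/-- functionally bounded sequences in normal sequential spaces -/
theorem seqB_of_normal (X : Type u) [TopologicalSpace X] [NormalSpace X] [T2Space X]
    [SequentialSpace X] : SeqB X := by
  intro x hx
  by_contra hcon
  push Not at hcon
  have hfib : ∀ c : X, {n | x n = c}.Finite := by
    intro c
    by_contra hinf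
    have hinf' : {n | x n = c}.Infinite := hinf
    refine hcon (Nat.nth fun n => x n = c) c (Nat.nth_strictMono hinf') ?_
    refine tendsto_const_nhds.congr fun n => ?_
    exact (Nat.nth_mem_of_infinite hinf' n).symm
  obtain ⟨φ, -, hφ⟩ := exists_seq_of_forall_finset_exists (fun _ : ℕ => True)
    (fun m n => m < n ∧ x m ≠ x n) (fun s _ => by
      have h1 : (⋃ m ∈ s, {n | x n = x m}).Finite := s.finite_toSet.biUnion fun m _ => hfib _
      obtain ⟨b, hb⟩ := (h1.union s.finite_toSet).bddAbove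
      refine ⟨b + 1, trivial, fun m hm => ⟨?_, fun h => ?_⟩⟩
      · have := hb (Or.inr hm)
        omega
      · have h2 : b + 1 ∈ ⋃ m ∈ s, {n | x n = x m} := by
          simp only [mem_iUnion]
          exact ⟨m, hm, h.symm⟩
        have := hb (Or.inl h2)
        omega)
  have hφm : StrictMono φ := fun m n h => (hφ m n h).1
  have hinj : Function.Injective (x ∘ φ) := by
    intro m n h
    rcases lt_trichotomy m n with h1 | h1 | h1
    · exact absurd h (hφ m n h1).2
    · exact h1
    · exact absurd h.symm (hφ n m h1).2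
  set t : ℕ → X := x ∘ φ with ht
  have hclosed : ∀ S : Set ℕ, IsClosed (t '' S) := by
    intro S
    apply IsSeqClosed.isClosed
    intro s p hs hsp
    choose i hiS hi using hs
    by_cases hc : ∃ m, {l | i l = m}.Infinite
    · obtain ⟨m, hm⟩ := hc
      have h1 : Tendsto (s ∘ Nat.nth fun l => i l = m) atTop (𝓝 p) :=
        hsp.comp (Nat.nth_strictMono hm).tendsto_atTop
      have h2 : ∀ n, (s ∘ Nat.nth fun l => i l = m) n = t m := by
        intro n
        have h3 : i (Nat.nth (fun l => i l = m) n) = m := Nat.nth_mem_of_infinite hm n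
        simp only [Function.comp]
        rw [← hi, h3]
      have h3 : p = t m := tendsto_nhds_unique h1 (tendsto_const_nhds.congr fun n => (h2 n).symm)
      obtain ⟨l, hl⟩ := hm.nonempty
      rw [h3]
      exact ⟨m, by rw [← show i l = m from hl]; exact hiS l, rfl⟩
    · exfalso
      push Not at hc
      have h1 : Tendsto i atTop atTop := by
        rw [← Nat.cofinite_eq_atTop]
        exact Filter.Tendsto.cofinite_of_finite_preimage_singleton fun m => by
          have := hc m
          exact this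
      obtain ⟨ψ, hψ, hψi⟩ := strictMono_subseq_of_tendsto_atTop h1
      refine hcon (φ ∘ (i ∘ ψ)) p (hφm.comp hψi) ?_
      refine (hsp.comp hψ.tendsto_atTop).congr fun n => ?_
      exact (hi _).symm
  haveI : DiscreteTopology (range t) := by
    refine discreteTopology_iff_forall_isClosed.2 fun S => ?_
    have h1 : (Subtype.val '' S : Set X) = t '' {n | (⟨t n, n, rfl⟩ : range t) ∈ S} := by
      ext z
      constructor
      · rintro ⟨⟨_, n, rfl⟩, hn, rfl⟩
        exact ⟨n, hn, rfl⟩
      · rintro ⟨n, hn, rfl⟩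
        exact ⟨_, hn, rfl⟩
    have h2 : IsClosed (Subtype.val '' S : Set X) := by
      rw [h1]; exact hclosed _
    have h3 := h2.preimage (continuous_subtype_val (p := fun z => z ∈ range t))
    rwa [preimage_image_eq _ Subtype.val_injective] at h3
  have hr : IsClosed (range t) := by
    rw [← image_univ]; exact hclosed _
  choose idx hidx using fun z : range t => z.2
  let f : C(range t, ℝ) := ⟨fun z => (idx z : ℝ), continuous_of_discreteTopology⟩
  obtain ⟨g, hg⟩ := ContinuousMap.exists_restrict_eq hr f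
  obtain ⟨C, hC⟩ := hx g g.continuous
  obtain ⟨n, hn⟩ := exists_nat_gt C
  have h1 : g (t n) = n := by
    have h2 := congrArg (fun k => k ⟨t n, n, rfl⟩) hg
    have h3 : g (t n) = (idx ⟨t n, n, rfl⟩ : ℝ) := h2
    rw [h3]
    have h4 : t (idx ⟨t n, n, rfl⟩) = t n := hidx ⟨t n, n, rfl⟩
    rw [hinj h4]
  have h2 := (le_abs_self _).trans (hC (φ n))
  have h3 : g (x (φ n)) = n := h1
  rw [h3] at h2
  linarith

end normal

end Pool.Agent.V11281.Snf
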